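import Pool.Agent.D0H54.Gk.CartPoly
import Pool.Agent.D0H54.GB.Mat

set_option linter.unusedSectionVars false

namespace Pool.Agent.D0H54.GE

open Polynomial Finset Gk

variable {E : Type*} [Field E] (p : ℕ) [hp : Fact p.Prime] [CharP E p]
  (D : Derivation ℤ E E) {T : E} (hT : D T = 1) (hdec : ∀ x : E, Dec p T x)

lemma cartN_Tpow (r i : ℕ) : cartN p D hT hdec r (T ^ i) =
    if i % p ^ r = p ^ r - 1 then T ^ (i / p ^ r) else 0 := by
  have hp0 : 0 < p := hp.out.pos
  induction r with
  | zero => simp [cartN_zero, Nat.mod_one]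
  | succ r ih =>
    have hpr : 0 < p ^ r := pow_pos hp0 r
    rw [cartN_succ, ih]
    have h1 : i % p ^ (r + 1) = i % p ^ r + p ^ r * (i / p ^ r % p) := by
      rw [pow_succ, Nat.mod_mul]
    have h2 : i / p ^ (r + 1) = i / p ^ r / p := by rw [pow_succ, Nat.div_div_eq_div_mul]
    have h3 : i % p ^ r < p ^ r := Nat.mod_lt _ hpr
    have h4 : i / p ^ r % p < p := Nat.mod_lt _ hp0
    have h5 : p ^ (r + 1) = p ^ r * p := pow_succ p r
    have h6 := cart_monom p D hT hdec 1 (i / p ^ r)
    rw [one_pow, one_mul, one_mul] at h6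
    by_cases h : i % p ^ r = p ^ r - 1
    · rw [if_pos h, h6, h2]
      by_cases h' : i / p ^ r % p = p - 1
      · rw [if_pos h', if_pos]
        rw [h1, h, h', h5, Nat.mul_sub, mul_one]
        have : p ^ r ≤ p ^ r * p := Nat.le_mul_of_pos_right _ hp0
        omega
      · rw [if_neg h', if_neg]
        intro hc
        rw [h1, h, h5] at hc
        apply h'
        have h7 : p ^ r * (i / p ^ r % p) = p ^ r * (p - 1) := by
          rw [Nat.mul_sub, mul_one]
          have : p ^ r ≤ p ^ r * p := Nat.le_mul_of_pos_right _ hp0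
          omega
        exact Nat.eq_of_mul_eq_mul_left hpr h7
    · rw [if_neg h, if_neg]
      · have := cartHom_apply p D hT hdec 0
        rw [map_zero] at this
        exact this.symm
      · intro hc
        rw [h1, h5] at hc
        have h8 : p ^ r * (i / p ^ r % p) ≤ p ^ r * (p - 1) := Nat.mul_le_mul_left _ (by omega)
        rw [Nat.mul_sub, mul_one] at h8
        have : p ^ r ≤ p ^ r * p := Nat.le_mul_of_pos_right _ hp0
        omega

lemma cq_monomial {κ : Type*} [Field κ] {q : ℕ} (hq : 0 < q) (i : ℕ) (c : κ) :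
    GB.cq q (monomial i c) = if i % q = q - 1 then monomial (i / q) c else 0 := by
  ext j
  rw [GB.coeff_cq hq, coeff_monomial]
  have hdiv := Nat.div_add_mod i q
  have hlt : i % q < q := Nat.mod_lt _ hq
  by_cases h : i % q = q - 1
  · rw [if_pos h, coeff_monomial]
    by_cases h' : i / q = j
    · rw [if_pos, if_pos h']
      subst h'
      rw [Nat.mul_add, mul_one]
      omega
    · rw [if_neg, if_neg h']
      intro hc
      apply h'
      have h1 : q * (i / q) = q * j := by
        have : q * (j + 1) = q * j + q := by ring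
        omega
      exact Nat.eq_of_mul_eq_mul_left hq h1
  · rw [if_neg h, coeff_zero, if_neg]
    intro hc
    apply h
    have h1 : i = (q - 1) + q * j := by
      have : q * (j + 1) = q * j + q := by ring
      omega
    rw [h1, Nat.add_mul_mod_self_left, Nat.mod_eq_of_lt (by omega)]

lemma cartN_cq {κ : Type*} [Field κ] (io : κ →+* E) (φ : κ →+* κ) (r q : ℕ) (hqp : q = p ^ r)
    (hφ : ∀ x, φ x = x ^ q) (f : κ[X]) :
    cartN p D hT hdec r (f.eval₂ (io.comp φ) T) = (GB.cq q f).eval₂ io T := by
  have hq : 0 < q := by rw [hqp]; exact pow_pos hp.out.pos r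
  induction f using Polynomial.induction_on' with
  | add a b ha hb => rw [eval₂_add, map_add, ha, hb, map_add, eval₂_add]
  | monomial i c =>
    rw [eval₂_monomial, RingHom.comp_apply, hφ, map_pow, hqp, cartN_mul, cartN_Tpow, ← hqp, cq_monomial hq]
    by_cases h : i % q = q - 1
    · rw [if_pos h, if_pos h, eval₂_monomial]
    · rw [if_neg h, if_neg h, mul_zero, eval₂_zero]

end Pool.Agent.D0H54.GE
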