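import Pool.Agent.D0H54.GE.Int
import Pool.Agent.D0H54.GD.Local
import Pool.Agent.D0H54.GD.Root

set_option linter.unusedSectionVars false

namespace Pool.Agent.D0H54.GE

open Polynomial Finset Gk GC

section hfq

/-- the polynomial ring over a finite field has finite quotients -/
lemma hfq_poly (k : Type*) [Field k] [Fintype k] : Ring.HasFiniteQuotients k[X] where
  finiteQuotient := by
    intro I hI
    obtain ⟨g0, hg0, hne⟩ := Submodule.exists_mem_ne_zero_of_ne_bot hI
    set g : k[X] := g0 * C (g0.leadingCoeff)⁻¹ with hg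
    have hmon : g.Monic := monic_mul_leadingCoeff_inv hne
    have hgI : g ∈ I := I.mul_mem_right _ hg0
    have : Module.Finite k (degreeLT k (g.natDegree + 1)) := by
      exact Module.Finite.equiv (degreeLTEquiv k (g.natDegree + 1)).symm
    have hfin : Finite (degreeLT k (g.natDegree + 1)) := Module.finite_of_finite k
    refine Finite.of_surjective (fun f : degreeLT k (g.natDegree + 1) => Ideal.Quotient.mk I (f : k[X])) ?_
    intro x
    obtain ⟨f, rfl⟩ := Ideal.Quotient.mk_surjective x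
    refine ⟨⟨f %ₘ g, ?_⟩, ?_⟩
    · rw [mem_degreeLT]
      refine lt_of_lt_of_le (degree_modByMonic_lt _ hmon) ?_
      rw [degree_eq_natDegree hmon.ne_zero]
      exact_mod_cast Nat.le_succ _
    · change Ideal.Quotient.mk I (f %ₘ g) = Ideal.Quotient.mk I f
      rw [Ideal.Quotient.eq]
      have h1 := modByMonic_add_div f g
      have h2 : f %ₘ g - f = g * (-(f /ₘ g)) := by linear_combination h1
      rw [h2]
      exact I.mul_mem_right _ hgI

end hfq

section rel

variable {F O : Type*} [Field F] [CommRing O] [IsDomain O] [Algebra O F] [IsFractionRing O F]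
  (p : ℕ) [hp : Fact p.Prime] [CharP F p]
  (D : Derivation ℤ F F) {T : F} (hT : D T = 1) (hdec : ∀ x, Dec p T x)

include hT hdec in
/-- elements with the same logarithmic derivative differ by a `p`-th power -/
lemma rel_of_dlog (u v : O) (hu : u ≠ 0) (hv : v ≠ 0) (h : F)
    (h1 : D (algebraMap O F u) = h * algebraMap O F u)
    (h2 : D (algebraMap O F v) = h * algebraMap O F v) :
    ∃ x y : O, x ≠ 0 ∧ y ≠ 0 ∧ u * x ^ p = v * y ^ p := by
  have hinj := IsFractionRing.injective O F
  set U := algebraMap O F u with hU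
  set V := algebraMap O F v with hV
  have hU0 : U ≠ 0 := fun h => hu (hinj (by rw [map_zero]; exact h))
  have hV0 : V ≠ 0 := fun h => hv (hinj (by rw [map_zero]; exact h))
  have h3 : D (U * V⁻¹) = 0 := by
    have e1 : D V⁻¹ = - (h * V⁻¹) := by
      have e2 : D (V * V⁻¹) = 0 := by rw [mul_inv_cancel₀ hV0, Derivation.map_one_eq_zero]
      rw [Derivation.leibniz, smul_eq_mul, smul_eq_mul, h2] at e2
      have e3 : V * (D V⁻¹ + h * V⁻¹) = 0 := by linear_combination e2
      rcases mul_eq_zero.1 e3 with e | e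
      · exact absurd e hV0
      · exact eq_neg_of_add_eq_zero_left e
    rw [Derivation.leibniz, smul_eq_mul, smul_eq_mul, h1, e1]
    ring
  obtain ⟨z, hz⟩ := ker_D p D hT hdec h3
  obtain ⟨a, b, hb, hab⟩ := IsFractionRing.div_surjective (A := O) z
  have hb0 : b ≠ 0 := nonZeroDivisors.ne_zero hb
  have hb1 : algebraMap O F b ≠ 0 := fun h => hb0 (hinj (by rw [map_zero]; exact h))
  have hz0 : z ≠ 0 := by
    intro h0
    rw [h0, zero_pow hp.out.ne_zero] at hz
    exact (mul_ne_zero hU0 (inv_ne_zero hV0)) hz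
  have ha0 : a ≠ 0 := by
    rintro rfl
    rw [map_zero, zero_div] at hab
    exact hz0 hab.symm
  refine ⟨b, a, hb0, ha0, ?_⟩
  apply hinj
  rw [map_mul, map_mul, map_pow, map_pow, ← hU, ← hV]
  rw [← hab, div_pow] at hz
  field_simp at hz
  linear_combination hz

end rel

section main

variable {k : Type*} [Field k] [Fintype k] {F : Type*} [Field F] [Algebra (RatFunc k) F]
  {O : Type*} [CommRing O] [IsDedekindDomain O] [Algebra O F] [IsFractionRing O F]
  (hfq : Ring.HasFiniteQuotients O)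
  (hint : ∀ x : F, IsI k x ↔ ∃ y : O, algebraMap O F y = x)
  (w : k[X]) (hw : w.Monic) (hirr : Irreducible w) (lam : F) (hlam : lam ≠ 0)
  (htor : cAct k w lam = 0) (hgen : IntermediateField.adjoin (RatFunc k) {lam} = ⊤)
  (sO : (F ≃ₐ[RatFunc k] F) → (O ≃+* O))
  (hsO : ∀ σ x, algebraMap O F (sO σ x) = σ (algebraMap O F x))

include hint hw hirr hlam htor hgen in
/-- `lam` is a prime element of the ring of integers -/
lemma prime_lam (L : O) (hL : algebraMap O F L = lam) : Prime L := by
  have hinj := IsFractionRing.injective O F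
  -- residues
  have hres : ∀ x : O, ∃ (a : k[X]) (A y : O), algebraMap O F A = al k F a ∧ x = A + L * y := by
    intro x
    obtain ⟨f, hf⟩ := R1b w hw hirr lam hlam htor hgen (algebraMap O F x) ((hint _).2 ⟨x, rfl⟩)
    obtain ⟨A, hA⟩ := (hint (al k F (f.coeff 0))).1 (int_al _)
    obtain ⟨y, hy⟩ := (hint (f.divX.eval₂ (al k F) lam)).1
      (int_eval _ (int_lam w hw lam hlam htor))
    refine ⟨f.coeff 0, A, y, hA, ?_⟩
    apply hinj
    rw [map_add, map_mul, hA, hL, hy, hf]
    conv_lhs => rw [← divX_mul_X_add f]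
    rw [eval₂_add, eval₂_mul, eval₂_X, eval₂_C]; ring
  have hmem : ∀ (a : k[X]) (A : O), algebraMap O F A = al k F a → (L ∣ A ↔ w ∣ a) := by
    intro a A hA
    constructor
    · rintro ⟨y, hy⟩
      refine R1c w hw hirr lam hlam htor hgen a ⟨algebraMap O F y, (hint _).2 ⟨y, rfl⟩, ?_⟩
      rw [← hA, hy, map_mul, hL]
    · rintro ⟨b, rfl⟩
      obtain ⟨e, e', he, he', hee, hwe⟩ := R1d w hw hirr lam hlam htor hgen
      have hN := N_pos k w hirr
      obtain ⟨y, hy⟩ := (hint (e * lam ^ (Fintype.card k ^ w.natDegree - 1 - 1) * al k F b)).1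
        (int_mul (int_mul he (int_pow (int_lam w hw lam hlam htor) _)) (int_al _))
      refine ⟨y, hinj ?_⟩
      rw [hA, map_mul, map_mul, hL, hy, hwe]
      have : lam ^ (Fintype.card k ^ w.natDegree - 1) = lam * lam ^ (Fintype.card k ^ w.natDegree - 1 - 1) := by
        rw [← pow_succ', Nat.sub_add_cancel hN]
      rw [this]; ring
  have hL0 : L ≠ 0 := by
    rintro rfl
    rw [map_zero] at hL
    exact hlam hL.symm
  refine ⟨hL0, ?_, ?_⟩
  · intro hu
    have h1 : L ∣ 1 := hu.dvd
    have h2 := (hmem 1 1 (by rw [map_one, map_one])).1 h1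
    exact hirr.not_isUnit (isUnit_of_dvd_one h2)
  · intro x y hxy
    obtain ⟨a, A, x', hA, rfl⟩ := hres x
    obtain ⟨b, B, y', hB, rfl⟩ := hres y
    have h1 : L ∣ A * B := by
      have h2 : A * B = (A + L * x') * (B + L * y') - L * (x' * (B + L * y') + A * y') := by ring
      rw [h2]
      exact dvd_sub hxy (Dvd.intro _ rfl)
    have h2 := (hmem (a * b) (A * B) (by rw [map_mul, map_mul, hA, hB])).1 h1
    have hwp : Prime w := hirr.prime
    rcases hwp.dvd_or_dvd h2 with h | h
    · left; exact dvd_add ((hmem a A hA).2 h) (Dvd.intro _ rfl)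
    · right; exact dvd_add ((hmem b B hB).2 h) (Dvd.intro _ rfl)

include hint hw hirr hlam htor hgen in
/-- the only prime over `w` -/
lemma eq_span_lam (L W : O) (hL : algebraMap O F L = lam) (hW : algebraMap O F W = al k F w)
    (P : Ideal O) [hPp : P.IsPrime] (hWP : W ∈ P) : P = Ideal.span {L} := by
  have hinj := IsFractionRing.injective O F
  have hprime := prime_lam hint w hw hirr lam hlam htor hgen L hL
  obtain ⟨e, e', he, he', hee, hwe⟩ := R1d w hw hirr lam hlam htor hgen
  obtain ⟨x', hx'⟩ := (hint e').1 he'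
  have h1 : L ^ (Fintype.card k ^ w.natDegree - 1) = x' * W := by
    apply hinj
    rw [map_pow, map_mul, hL, hx', hW, hwe, ← mul_assoc, mul_comm e' e, hee, one_mul]
  have h2 : L ∈ P := hPp.mem_of_pow_mem _ (by rw [h1]; exact P.mul_mem_left _ hWP)
  have h3 : (Ideal.span {L}).IsPrime := (Ideal.span_singleton_prime hprime.ne_zero).2 hprime
  have h4 : Ideal.span {L} ≠ ⊥ := by
    rw [ne_eq, Ideal.span_singleton_eq_bot]; exact hprime.ne_zero
  have h5 : (Ideal.span {L}).IsMaximal := h3.isMaximal h4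
  exact (h5.eq_of_le hPp.ne_top ((Ideal.span_singleton_le_iff_mem P).2 h2)).symm

include hint hw hirr hlam htor hsO in
lemma sO_lam (L : O) (hL : algebraMap O F L = lam) (σ : F ≃ₐ[RatFunc k] F) (g : k[X])
    (hg : ¬ w ∣ g) (hσ : σ lam = cAct k g lam) : Associated (sO σ L) L := by
  have hinj := IsFractionRing.injective O F
  obtain ⟨e, e', he, he', hee, hwe⟩ := R1e w hw hirr lam hlam htor g hg
  obtain ⟨x, hx⟩ := (hint e).1 he
  obtain ⟨x', hx'⟩ := (hint e').1 he'
  have h1 : x * x' = 1 := by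
    apply hinj
    rw [map_mul, hx, hx', hee, map_one]
  have h2 : sO σ L = x * L := by
    apply hinj
    rw [hsO, hL, hσ, hwe, map_mul, hx, hL]
  rw [h2]
  exact associated_unit_mul_left L x (IsUnit.of_mul_eq_one x' h1)

variable {κ : Type*} [Field κ] [Fintype κ] [Algebra k κ] (θ : κ)
  (hwdvd : ∀ a : k[X], w ∣ a ↔ aeval θ a = 0) (rep : κ → k[X]) (hrep : ∀ a, aeval θ (rep a) = a)
  (p : ℕ) [hp : Fact p.Prime] [CharP F p]
  (D : Derivation ℤ F F) (hD : ∀ f : k[X], D (al k F f) = al k F (derivative f))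
  (hT : D (al k F X) = 1) (hdec : ∀ x, Dec p (al k F X) x)
  (l : ℕ) (hl0 : 0 < l) (hl : l < Fintype.card κ - 1)
  (h : κ → F) (hadd : ∀ c c', h (c + c') = h c + h c') (hcart : ∀ c, cart p hdec (h c) = h c)
  (hintw : ∀ c, IsI k (al k F w * h c))
  (hσ : ∀ (σ : F ≃ₐ[RatFunc k] F) (g : k[X]), σ lam = cAct k g lam →
    ∀ c, σ (h c) = h ((aeval θ g) ^ l * c))

include hT hcart in
lemma exists_g0 : ∃ g : κ → O, (∀ c, g c ≠ 0) ∧
    (∀ c, D (algebraMap O F (g c)) = h c * algebraMap O F (g c)) := by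
  have hinj := IsFractionRing.injective O F
  have key : ∀ c, ∃ g : O, g ≠ 0 ∧ D (algebraMap O F g) = h c * algebraMap O F g := by
    intro c
    obtain ⟨g0, hg0, hDg⟩ := exists_dlog p D hT hdec (h c) (hcart c)
    obtain ⟨a, b, hb, hab⟩ := IsFractionRing.div_surjective (A := O) g0
    have hb0 : b ≠ 0 := nonZeroDivisors.ne_zero hb
    have hb1 : algebraMap O F b ≠ 0 := fun h => hb0 (hinj (by rw [map_zero]; exact h))
    have ha0 : a ≠ 0 := by
      rintro rfl
      rw [map_zero, zero_div] at hab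
      exact hg0 hab.symm
    have hp0 := hp.out.pos
    have e : algebraMap O F (a * b ^ (p - 1)) = (algebraMap O F b) ^ p * g0 := by
      have e1 : (algebraMap O F b) ^ p = algebraMap O F b * (algebraMap O F b) ^ (p - 1) := by
        rw [← pow_succ', Nat.sub_add_cancel hp0]
      rw [map_mul, map_pow, ← hab, e1]
      field_simp
    refine ⟨a * b ^ (p - 1), mul_ne_zero ha0 (pow_ne_zero _ hb0), ?_⟩
    rw [e, Derivation.leibniz, D_powp, smul_zero, add_zero, smul_eq_mul, hDg]
    ring
  choose g hg1 hg2 using key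
  exact ⟨g, hg1, hg2⟩

include hT hdec hadd in
lemma g_add (g : κ → O) (hg0 : ∀ c, g c ≠ 0)
    (hg : ∀ c, D (algebraMap O F (g c)) = h c * algebraMap O F (g c)) (c c' : κ) :
    ∃ x y : O, x ≠ 0 ∧ y ≠ 0 ∧ g (c + c') * x ^ p = g c * g c' * y ^ p := by
  refine rel_of_dlog p D hT hdec _ _ (hg0 _) (mul_ne_zero (hg0 _) (hg0 _)) (h (c + c')) (hg _) ?_
  rw [map_mul, Derivation.leibniz, hg, hg, hadd, smul_eq_mul, smul_eq_mul]
  ring

lemma comm_sigma (σ : F ≃ₐ[RatFunc k] F) (hT : D (al k F X) = 1) (hdec : ∀ x, Dec p (al k F X) x) (x : F) :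
    σ (D x) = D (σ x) :=
  comm_D p D D hT hT (σ : F →+* F) (by
    change σ (al k F X) = _
    rw [al_apply, AlgEquiv.commutes]) x (hdec x)

include hT hdec hσ hsO in
lemma g_sigma (g : κ → O) (hg0 : ∀ c, g c ≠ 0)
    (hg : ∀ c, D (algebraMap O F (g c)) = h c * algebraMap O F (g c))
    (σ : F ≃ₐ[RatFunc k] F) (b : k[X]) (hb : σ lam = cAct k b lam) (c : κ) :
    ∃ x y : O, x ≠ 0 ∧ y ≠ 0 ∧ sO σ (g c) * x ^ p = g ((aeval θ b) ^ l * c) * y ^ p := by
  refine rel_of_dlog p D hT hdec _ _ ?_ (hg0 _) (h ((aeval θ b) ^ l * c)) ?_ (hg _)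
  · intro h0
    exact hg0 c ((sO σ).injective (by rw [h0, map_zero]))
  · rw [hsO, ← comm_sigma p D σ hT hdec, hg, map_mul, hσ σ b hb]

include hfq hint hw hirr hlam htor hgen hsO hwdvd hrep hD hT hdec hl0 hl hadd hintw hσ in
theorem exists_ideal (g : κ → O) (hg0 : ∀ c, g c ≠ 0)
    (hg : ∀ c, D (algebraMap O F (g c)) = h c * algebraMap O F (g c)) (c : κ) :
    ∃ I : Ideal O, Ideal.span {g c} = I ^ p := by
  have hinj := IsFractionRing.injective O F
  have hp0 := hp.out.ne_zero
  obtain ⟨W, hW⟩ := (hint (al k F w)).1 (int_al w)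
  obtain ⟨T, hTO⟩ := (hint (al k F X)).1 (int_al X)
  obtain ⟨L, hL⟩ := (hint lam).1 (int_lam w hw lam hlam htor)
  have hprime := prime_lam hint w hw hirr lam hlam htor hgen L hL
  refine GD.exists_root p hp0 (g c) (hg0 c) fun P hP hPb n h1 h2 => ?_
  by_cases hWP : W ∈ P
  · -- the prime over `w`
    have hPL := eq_span_lam hint w hw hirr lam hlam htor hgen L W hL hW P hWP
    have hfm : ∀ u : O, u ≠ 0 → FiniteMultiplicity L u := fun u hu =>
      FiniteMultiplicity.of_prime_left hprime hu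
    have hn : n = multiplicity L (g c) := by
      rw [hPL, Ideal.span_singleton_pow, Ideal.mem_span_singleton] at h1 h2
      exact (multiplicity_eq_of_dvd_of_not_dvd h1 h2).symm
    set m : κ → ZMod p := fun c => (multiplicity L (g c) : ZMod p) with hm
    have hmulp : ∀ u x : O, u ≠ 0 → x ≠ 0 →
        ((multiplicity L (u * x ^ p) : ℕ) : ZMod p) = (multiplicity L u : ZMod p) := by
      intro u x hu hx
      rw [multiplicity_mul hprime (hfm _ (mul_ne_zero hu (pow_ne_zero _ hx))),
        (hfm x hx).multiplicity_pow hprime, Nat.cast_add, Nat.cast_mul, ZMod.natCast_self,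
        zero_mul, add_zero]
    have hm_add : ∀ c c', m (c + c') = m c + m c' := by
      intro c c'
      obtain ⟨x, y, hx, hy, hxy⟩ := g_add p D hT hdec h hadd g hg0 hg c c'
      have e1 := hmulp (g (c + c')) x (hg0 _) hx
      rw [hxy, hmulp _ _ (mul_ne_zero (hg0 _) (hg0 _)) hy,
        multiplicity_mul hprime (hfm _ (mul_ne_zero (hg0 _) (hg0 _))), Nat.cast_add] at e1
      exact e1.symm
    obtain ⟨b, hb⟩ : ∃ b : κˣ, b ^ l ≠ 1 := by
      by_contra hcon
      push Not at hcon
      have h3 := (FiniteField.forall_pow_eq_one_iff κ l).1 hcon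
      have := Nat.le_of_dvd hl0 h3
      omega
    have hbw : ¬ w ∣ rep (b : κ) := by
      rw [hwdvd, hrep]; exact b.ne_zero
    obtain ⟨σ, hσb⟩ := R1a w hw hirr lam hlam htor hgen (rep (b : κ)) hbw
    have hm_b : ∀ c, m ((b : κ) ^ l * c) = m c := by
      intro c
      obtain ⟨x, y, hx, hy, hxy⟩ := g_sigma lam sO hsO θ p D hT hdec l h hσ g hg0 hg σ (rep (b : κ)) hσb c
      rw [hrep] at hxy
      have hsne : sO σ (g c) ≠ 0 := by
        intro h0
        exact hg0 c ((sO σ).injective (by rw [h0, map_zero]))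
      have e1 := hmulp (sO σ (g c)) x hsne hx
      rw [hxy, hmulp _ _ (hg0 _) hy] at e1
      have e2 : multiplicity L (sO σ (g c)) = multiplicity L (g c) := by
        have e3 : emultiplicity L (sO σ (g c)) = emultiplicity L (g c) := by
          have e4 : emultiplicity (sO σ L) (sO σ (g c)) = emultiplicity L (g c) :=
            emultiplicity_map_eq (sO σ)
          rw [← e4]
          exact emultiplicity_eq_of_associated_left
            (sO_lam hint w hw hirr lam hlam htor sO hsO L hL σ _ hbw hσb)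
        rw [multiplicity, multiplicity, e3]
      rw [e2] at e1
      exact e1
    have hb1 : (b : κ) ^ l - 1 ≠ 0 := by
      rw [sub_ne_zero]
      intro h0
      exact hb (by ext; simpa using h0)
    have hm0 : m c = 0 := by
      have e1 := hm_b (((b : κ) ^ l - 1)⁻¹ * c)
      have e2 : (b : κ) ^ l * (((b : κ) ^ l - 1)⁻¹ * c) = c + ((b : κ) ^ l - 1)⁻¹ * c := by
        field_simp
        ring
      rw [e2, hm_add] at e1
      exact add_eq_right.1 e1
    rw [hn]
    exact (ZMod.natCast_eq_zero_iff _ _).1 hm0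
  · have : Finite (O ⧸ P) := hfq.finiteQuotient hPb
    refine GD.dvd_count p D P hPb T (by rw [hTO, hT]) W hWP ?_ (g c) (hg0 c) (h c) (hg c) ?_ n h1 h2
    · intro x
      obtain ⟨y, hy⟩ := (hint _).1 (int_D w hw hirr lam hlam htor hgen D hD θ hwdvd rep hrep
        (algebraMap O F x) ((hint _).2 ⟨x, rfl⟩))
      exact ⟨y, by rw [hy, hW]; ring⟩
    · obtain ⟨y, hy⟩ := (hint _).1 (hintw c)
      exact ⟨y, by rw [hy, hW]; ring⟩

end main

end Pool.Agent.D0H54.GE
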