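import Mathlib
import Pool.Agent.D0H54.Gk.Act

/-!
# The objects of Gekeler's conjecture

The Carlitz action `cAct` and the Bernoulli-Carlitz numbers are in the files on the cyclotomic function
fields; here are the `p`-primary part of a commutative group, its tensor product with the ring of
Witt vectors, the action of the Galois group on the class group and the components.
-/

namespace Pool.Agent.D0H54.GE

open Polynomial Finset Gk TensorProduct

section defs

/-- the `p`-primary part of a commutative group -/
def pPart (G : Type*) [CommGroup G] (p : ℕ) : Subgroup G where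
  carrier := {x | ∃ n : ℕ, x ^ (p ^ n) = 1}
  mul_mem' := by
    rintro x y ⟨n, hn⟩ ⟨m, hm⟩
    exact ⟨n + m, by rw [mul_pow, pow_add, pow_mul, hn, one_pow, one_mul, mul_comm (p ^ n), pow_mul, hm,
      one_pow]⟩
  one_mem' := ⟨0, one_pow _⟩
  inv_mem' := by
    rintro x ⟨n, hn⟩
    exact ⟨n, by rw [inv_pow, hn, inv_one]⟩

/-- the endomorphism of the `p`-primary part induced by an endomorphism of the group -/
def pPartMap {G : Type*} [CommGroup G] (p : ℕ) (f : G →* G) : pPart G p →* pPart G p :=
  (f.comp (pPart G p).subtype).codRestrict (pPart G p) (by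
    rintro ⟨x, n, hn⟩
    exact ⟨n, by
      change f x ^ p ^ n = 1
      rw [← map_pow, hn, map_one]⟩)

/-- `W ⊗ C`, where `W` is the ring of Witt vectors of `κ` and `C` the `p`-primary part of `G` -/
abbrev WT (p : ℕ) [Fact p.Prime] (κ : Type*) [Field κ] (G : Type*) [CommGroup G] : Type _ :=
  WittVector p κ ⊗[ℤ] Additive (pPart G p)

/-- the endomorphism of `W ⊗ C` induced by an endomorphism of `G` -/
noncomputable def WTmap (p : ℕ) [Fact p.Prime] (κ : Type*) [Field κ] {G : Type*} [CommGroup G] (f : G →* G) :
    WT p κ G →ₗ[WittVector p κ] WT p κ G :=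
  (MonoidHom.toAdditive (pPartMap p f)).toIntLinearMap.baseChange (WittVector p κ)

variable {k : Type*} [Field k] [Fintype k] {F : Type*} [Field F] [Algebra (RatFunc k) F]
  [FiniteDimensional (RatFunc k) F] [Algebra k[X] F] [IsScalarTower k[X] (RatFunc k) F]

/-- the action of the Galois group of `F / k(T)` on the class group of the integral closure `O` of `k[T]`
in `F` -/
noncomputable def galClass (O : Type*) [CommRing O] [IsDomain O] [Algebra k[X] O] [Algebra O F]
    [IsScalarTower k[X] O F] [IsIntegralClosure O k[X] F] (σ : F ≃ₐ[RatFunc k] F) :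
    ClassGroup O →* ClassGroup O :=
  (ClassGroup.mulEquiv (galRestrict k[X] (RatFunc k) F O σ).toRingEquiv).toMonoidHom

/-- the component of `W ⊗ C`, `C` the `p`-primary part of the class group of `O`, on which the automorphisms
`Λ ↦ C_a(Λ)` act by the `l`-th power of the Teichmuller representative of `a` -/
noncomputable def component (p : ℕ) [Fact p.Prime] {κ : Type*} [Field κ] (pr : k[X] →+* κ) (O : Type*)
    [CommRing O] [IsDomain O] [Algebra k[X] O] [Algebra O F] [IsScalarTower k[X] O F]
    [IsIntegralClosure O k[X] F] (Λ : F) (l : ℕ) :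
    Submodule (WittVector p κ) (WT p κ (ClassGroup O)) :=
  ⨅ (σ : F ≃ₐ[RatFunc k] F) (a : k[X]) (_ : σ Λ = cAct k a Λ),
    Module.End.eigenspace (WTmap p κ (galClass O σ)) (WittVector.teichmuller p (pr a) ^ l)

end defs

end Pool.Agent.D0H54.GE
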