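import Pool.Agent.D0H54.GE.IntE

set_option linter.unusedSectionVars false

namespace Pool.Agent.D0H54.GE

open Polynomial Finset Gk GC

section galois

variable {K F E : Type*} [Field K] [Field F] [Field E] [Algebra K F] [Algebra K E] (j : F →ₐ[K] E)
  [IsGalois K E]

/-- an element fixed by all automorphisms over `F` is in the image of `F` -/
lemma mem_of_fixed (x : E) (h : ∀ τ : E ≃ₐ[K] E, (∀ y, τ (j y) = j y) → τ x = x) :
    ∃ y, j y = x := by
  let _ : Algebra F E := j.toRingHom.toAlgebra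
  have : IsScalarTower K F E := IsScalarTower.of_algebraMap_eq fun r => (j.commutes r).symm
  have : IsGalois F E := IsGalois.tower_top_of_isGalois K F E
  have h1 := (InfiniteGalois.mem_range_algebraMap_iff_fixed (k := F) (K := E) x).2 (fun f => by
    refine h (f.restrictScalars K) fun y => ?_
    exact f.commutes y)
  obtain ⟨y, hy⟩ := h1
  exact ⟨y, hy⟩

/-- lifting an automorphism -/
lemma exists_lift (σ : F ≃ₐ[K] F) : ∃ τ : E ≃ₐ[K] E, ∀ y, τ (j y) = j (σ y) := by
  let _ : Algebra F E := j.toRingHom.toAlgebra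
  have : IsScalarTower K F E := IsScalarTower.of_algebraMap_eq fun r => (j.commutes r).symm
  have : Normal K E := IsGalois.to_normal
  exact ⟨σ.liftNormal E, fun y => σ.liftNormal_commutes E y⟩

end galois

section desc

variable {k : Type*} [Field k] [Fintype k] {F E : Type*} [Field F] [Algebra (RatFunc k) F]
  [Field E] [Algebra (RatFunc k) E] (j : F →ₐ[RatFunc k] E) [IsGalois (RatFunc k) E]
  (w : k[X]) (hw : w.Monic) (hirr : Irreducible w) (lam : F) (hlam : lam ≠ 0)
  (htor : cAct k w lam = 0) (hgen : IntermediateField.adjoin (RatFunc k) {lam} = ⊤)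
  {κ : Type*} [Field κ] [Fintype κ] [Algebra k κ] (θ : κ)
  (hsurj : Function.Surjective (aeval θ : k[X] → κ))
  (hwdvd : ∀ a : k[X], w ∣ a ↔ aeval θ a = 0) (rep : κ → k[X]) (hrep : ∀ a, aeval θ (rep a) = a)
  (M : Datum (Fintype.card k) w.natDegree (al k E X) θ (LL (k := k) (j lam) rep))
  (hio : ∀ c : k, M.io (algebraMap k κ c) = al k E (C c))
  (hcard : Fintype.card κ = Fintype.card k ^ w.natDegree) (hd : 1 ≤ w.natDegree)
  (hq : 2 ≤ Fintype.card k) (φ : κ →+* κ) (hφ : ∀ x, φ x = x ^ Fintype.card k)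

lemma j_al (a : k[X]) : j (al k F a) = al k E a := by
  rw [al_apply, al_apply, AlgHom.commutes]

lemma tau_al (τ : E ≃ₐ[RatFunc k] E) (a : k[X]) : τ (al k E a) = al k E a := by
  rw [al_apply, AlgEquiv.commutes]

include hwdvd hrep htor in
lemma tau_LL (τ : E ≃ₐ[RatFunc k] E) (g : k[X]) (hτ : τ (j lam) = cAct k g (j lam)) (a : κ) :
    τ (LL (k := k) (j lam) rep a) = LL (k := k) (j lam) rep (a * aeval θ g) := by
  have htorE : cAct k w (j lam) = 0 := by rw [cAct_map, htor, map_zero]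
  have h1 : a * aeval θ g = aeval θ (rep a * g) := by rw [map_mul, hrep]
  rw [h1, LL_aeval θ w hwdvd (j lam) htorE rep hrep, cAct_mul, ← hτ]
  exact (cAct_map (τ : E →ₐ[RatFunc k] E) (rep a) (j lam)).symm

include hw hsurj hwdvd hio htor hrep in
/-- the action of an automorphism on the elements `yc` -/
lemma tau_yc' (τ : E ≃ₐ[RatFunc k] E) (g : k[X]) (hτ : τ (j lam) = cAct k g (j lam))
    (l : ℕ) (hl : l < Fintype.card k ^ w.natDegree) (f : κ[X]) (c : κ) :
    τ (yc M hcard hd hq φ hφ l f c) = yc M hcard hd hq φ hφ l f ((aeval θ g) ^ l * c) := by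
  obtain ⟨t, ht⟩ := exists_tau_io w hw θ hsurj hwdvd M.io hio (τ : E →+* E) (fun a => tau_al τ a)
  exact tau_yc M hcard hd hq φ hφ (τ : E →+* E) (tau_al τ X) t ht (aeval θ g)
    (fun a => tau_LL j w lam htor θ hwdvd rep hrep τ g hτ a) l hl f c

include hw hsurj hwdvd hio htor hrep in
lemma exists_yF (l : ℕ) (hl : l < Fintype.card k ^ w.natDegree) (f : κ[X]) :
    ∃ y : κ → F, ∀ c, j (y c) = yc M hcard hd hq φ hφ l f c := by
  have h : ∀ c, ∃ y : F, j y = yc M hcard hd hq φ hφ l f c := by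
    intro c
    refine mem_of_fixed j _ fun τ hτ => ?_
    have h1 : τ (j lam) = cAct k (1 : k[X]) (j lam) := by rw [cAct_one, hτ]
    rw [tau_yc' j w hw lam htor θ hsurj hwdvd rep hrep M hio hcard hd hq φ hφ τ 1 h1 l hl f c, map_one,
      one_pow, one_mul]
  choose y hy using h
  exact ⟨y, hy⟩

lemma isI_of_map (x : F) (h : IsI k (j x)) : IsI k x := by
  obtain ⟨g, hg, hg2⟩ := h
  refine ⟨g, hg, ?_⟩
  apply (j : F →+* E).injective
  rw [map_zero, ← hg2, hom_eval₂]
  congr 1
  ext a <;> exact j_al j _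

variable (p : ℕ) [hp : Fact p.Prime] [CharP E p] [CharP F p] [CharP κ p]
  (D : Derivation ℤ E E) (hDT : D (al k E X) = 1)
  (hdec : ∀ x : E, Dec p (al k E X) x)
  (DF : Derivation ℤ F F) (hDF : ∀ f : k[X], DF (al k F f) = al k F (derivative f))
  (hDTF : DF (al k F X) = 1)
  (hdecF : ∀ x : F, Dec p (al k F X) x)
  {r : ℕ} (hqp : Fintype.card k = p ^ r) (hr : 1 ≤ r)

include hw hsurj hwdvd hio htor hrep hqp hlam hirr hgen hDF hDTF hDT hr hdec in
theorem exists_hF [Fintype κˣ] (l : ℕ) (hl : l < Fintype.card k ^ w.natDegree) (f : κ[X])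
    (hf : GB.cq (Fintype.card k) (Datum.Pk (Fintype.card k) w.natDegree θ l * f) = f) :
    ∃ h : κ → F, (∀ c c', h (c + c') = h c + h c') ∧ (∀ c, cart p hdecF (h c) = h c) ∧
      (∀ c, IsI k (al k F w * h c)) ∧
      (∀ (σ : F ≃ₐ[RatFunc k] F) (g : k[X]), σ lam = cAct k g lam →
        ∀ c, σ (h c) = h ((aeval θ g) ^ l * c)) ∧
      (∑ c : κˣ, (M.io (c : κ))⁻¹ * j (h (c : κ)) = - om M hcard hd hq φ hφ l 0 f) := by
  obtain ⟨y, hy⟩ := exists_yF j w hw lam htor θ hsurj hwdvd rep hrep M hio hcard hd hq φ hφ l hl f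
  have hjT : (j : F →+* E) (al k F X) = al k E X := j_al j X
  have hjinj : Function.Injective j := (j : F →+* E).injective
  set h : κ → F := fun c => ∑ n ∈ range r, cartN p DF hDTF hdecF n (y c) with hh
  have hjh : ∀ c, j (h c) = hc M hcard hd hq φ hφ p D hDT hdec l f r c := by
    intro c
    rw [hh, hc]
    beta_reduce
    rw [map_sum]
    refine sum_congr rfl fun n _ => ?_
    have h1 := comm_cartN p DF D hDTF hDT (j : F →+* E) hjT hdecF hdec n (y c)
    rw [← hy]
    exact h1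
  have hjlam : j lam ≠ 0 := fun h0 => hlam (hjinj (by rw [h0, map_zero]))
  have htorE : cAct k w (j lam) = 0 := by rw [cAct_map, htor, map_zero]
  refine ⟨h, ?_, ?_, ?_, ?_, ?_⟩
  · intro c c'
    apply hjinj
    rw [map_add, hjh, hjh, hjh, hc_add]
  · intro c
    apply hjinj
    have h1 := comm_cart p DF D hDTF hDT (j : F →+* E) hjT hdecF hdec (h c)
    have h2 : j (cart p hdecF (h c)) = cart p hdec (j (h c)) := h1
    rw [h2, hjh]
    exact cart_hc M hcard hd hq φ hφ p D hDT hdec hqp l f hf c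
  · intro c
    rw [hh]
    beta_reduce
    rw [mul_sum]
    refine int_sum _ _ fun n _ => ?_
    refine int_cartN w hw hirr lam hlam htor hgen DF hDF θ hwdvd rep hrep p hDTF hdecF n (y c) ?_
    refine isI_of_map j _ ?_
    rw [map_mul, j_al, hy]
    exact int_w_yc w hw (j lam) hjlam htorE θ hsurj hwdvd rep M hio hcard hd hq φ hφ l f c
  · intro σ g hσ c
    obtain ⟨τ, hτ⟩ := exists_lift (E := E) j σ
    have hτlam : τ (j lam) = cAct k g (j lam) := by rw [hτ, hσ, cAct_map]
    apply hjinj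
    rw [← hτ, hjh, hjh]
    obtain ⟨t, ht⟩ := exists_tau_io w hw θ hsurj hwdvd M.io hio (τ : E →+* E) (fun a => tau_al τ a)
    exact tau_hc M hcard hd hq φ hφ (τ : E →+* E) (tau_al τ X) t ht (aeval θ g)
      (fun a => tau_LL j w lam htor θ hwdvd rep hrep τ g hτlam a) p D hDT hdec l hl f c
  · rw [← sum_hc M hcard hd hq φ hφ p D hDT hdec hqp l f hr]
    refine sum_congr rfl fun c _ => ?_
    rw [hjh]

end desc

end Pool.Agent.D0H54.GE
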