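import Pool.Agent.D0H54.GA.PieceA

set_option linter.unusedSectionVars false

namespace Pool.Agent.D0H54.GE

open Polynomial Finset Gk

section descent

variable {κ Om : Type*} [Field κ] [Field Om] [Algebra κ Om]

lemma cq_map {q : ℕ} (hq : 0 < q) (f : κ[X]) : GB.cq q (f.map (algebraMap κ Om)) =
    (GB.cq q f).map (algebraMap κ Om) := by
  ext i
  rw [GB.coeff_cq hq, coeff_map, coeff_map, GB.coeff_cq hq]

/-- coefficientwise application of a functional -/
noncomputable def ap (L : Om →ₗ[κ] κ) (f : Om[X]) : κ[X] :=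
  ∑ i ∈ range (f.natDegree + 1), monomial i (L (f.coeff i))

lemma coeff_ap (L : Om →ₗ[κ] κ) (f : Om[X]) (i : ℕ) : (ap L f).coeff i = L (f.coeff i) := by
  rw [ap, finsetSum_coeff]
  simp only [coeff_monomial]
  rw [Finset.sum_ite_eq']
  split_ifs with h
  · rfl
  · rw [mem_range, not_lt] at h
    rw [coeff_eq_zero_of_natDegree_lt (by omega), map_zero]

lemma ap_fix {q : ℕ} (hq : 0 < q) (P : κ[X]) (L : Om →ₗ[κ] κ) (f : Om[X])
    (hf : GB.cq q (P.map (algebraMap κ Om) * f) = f) : GB.cq q (P * ap L f) = ap L f := by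
  ext i
  rw [GB.coeff_cq hq, coeff_ap, coeff_mul]
  conv_rhs => rw [← hf, GB.coeff_cq hq, coeff_mul, map_sum]
  refine sum_congr rfl fun x _ => ?_
  rw [coeff_map, coeff_ap, ← Algebra.smul_def, map_smul, smul_eq_mul]

/-- descent of two independent solutions -/
theorem two_sol_descend {q : ℕ} (hq : 0 < q) (P : κ[X]) (f g : Om[X])
    (hf : GB.cq q (P.map (algebraMap κ Om) * f) = f) (hg : GB.cq q (P.map (algebraMap κ Om) * g) = g)
    (hind : LinearIndependent Om ![f, g]) :
    ∃ u v : κ[X], GB.cq q (P * u) = u ∧ GB.cq q (P * v) = v ∧ LinearIndependent κ ![u, v] := by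
  by_contra hcon
  push Not at hcon
  -- all solutions over κ are multiples of one
  obtain ⟨v, hv⟩ : ∃ v : κ[X], ∀ u, GB.cq q (P * u) = u → ∃ t : κ, u = C t * v := by
    by_cases h : ∃ v, GB.cq q (P * v) = v ∧ v ≠ 0
    · obtain ⟨v, hv1, hv2⟩ := h
      refine ⟨v, fun u hu => ?_⟩
      have h1 := hcon v u hv1 hu
      rw [LinearIndependent.pair_iff] at h1
      push Not at h1
      obtain ⟨s, t, hst, hne⟩ := h1
      have ht : t ≠ 0 := by
        intro ht
        rw [ht, zero_smul, add_zero] at hst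
        rcases smul_eq_zero.1 hst with h | h
        · exact hne h ht
        · exact hv2 h
      refine ⟨-(t⁻¹ * s), ?_⟩
      have h2 : C t * u = - (C s * v) := by
        rw [← smul_eq_C_mul, ← smul_eq_C_mul]
        exact eq_neg_of_add_eq_zero_right hst
      have h3 : C t⁻¹ * C t = (1 : κ[X]) := by rw [← C_mul, inv_mul_cancel₀ ht, C_1]
      have h4 : u = C t⁻¹ * (C t * u) := by rw [← mul_assoc, h3, one_mul]
      rw [h4, h2, C_neg, C_mul]; ring
    · push Not at h
      exact ⟨0, fun u hu => ⟨0, by rw [h u hu]; simp⟩⟩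
  -- hence all solutions over Om are multiples of v
  have key : ∀ f : Om[X], GB.cq q (P.map (algebraMap κ Om) * f) = f →
      ∃ t : Om, f = C t * v.map (algebraMap κ Om) := by
    intro f hf
    have h1 : ∀ L : Om →ₗ[κ] κ, ∃ t : κ, ap L f = C t * v := fun L => hv _ (ap_fix hq P L f hf)
    by_cases hv0 : v = 0
    · refine ⟨0, ?_⟩
      rw [C_0, zero_mul]
      ext i
      rw [coeff_zero]
      refine (Module.forall_dual_apply_eq_zero_iff κ (f.coeff i)).1 fun L => ?_
      obtain ⟨t, ht⟩ := h1 L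
      rw [hv0, mul_zero] at ht
      rw [← coeff_ap, ht, coeff_zero]
    · obtain ⟨m, hm⟩ : ∃ m, v.coeff m ≠ 0 := by
        by_contra h
        push Not at h
        exact hv0 (by ext i; rw [h i, coeff_zero])
      refine ⟨f.coeff m * algebraMap κ Om (v.coeff m)⁻¹, ?_⟩
      ext i
      rw [coeff_C_mul, coeff_map]
      rw [← sub_eq_zero]
      refine (Module.forall_dual_apply_eq_zero_iff κ _).1 fun L => ?_
      obtain ⟨t, ht⟩ := h1 L
      have e1 : f.coeff m * algebraMap κ Om (v.coeff m)⁻¹ * algebraMap κ Om (v.coeff i) =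
          ((v.coeff m)⁻¹ * v.coeff i) • f.coeff m := by
        rw [Algebra.smul_def, map_mul]; ring
      rw [map_sub, e1, map_smul, ← coeff_ap, ← coeff_ap, ht, coeff_C_mul, coeff_C_mul, smul_eq_mul]
      field_simp
      ring
  obtain ⟨s, hs⟩ := key f hf
  obtain ⟨t, ht⟩ := key g hg
  rw [LinearIndependent.pair_iff] at hind
  have h1 := hind t (-s) (by
    rw [hs, ht, smul_eq_C_mul, smul_eq_C_mul, C_neg]; ring)
  have h2 := hind 1 0 (by
    rw [hs, neg_eq_zero.1 h1.2]; simp)
  exact one_ne_zero h2.1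

end descent

section poly

variable {κ : Type*} [Field κ] {q d : ℕ} (hq : 2 ≤ q) (hd : 1 ≤ d) (θ : κ) (l : ℕ)
  (hsign : (-1 : κ) ^ (q - 1) = 1)

/-- the number `∑ (q - 1 - l_j)` -/
def es (q d l : ℕ) : ℕ := ∑ j ∈ range d, (q - 1 - dg q d l j)

include hq in
lemma es_add (l : ℕ) : es q d l + ∑ j ∈ range d, dg q d l j = d * (q - 1) := by
  rw [es, ← sum_add_distrib]
  have : ∀ j ∈ range d, q - 1 - dg q d l j + dg q d l j = q - 1 := by
    intro j _
    have := dg_lt (d := d) hq l j
    omega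
  rw [sum_congr rfl this, sum_const, card_range, smul_eq_mul]

include hq in
lemma sum_e_pow (hl : l < q ^ d) : ∑ j ∈ range d, (q - 1 - dg q d l j) * q ^ j + l = q ^ d - 1 := by
  conv_lhs => rw [← sum_dg hq l hl]
  have h0 := sum_dg hq l hl
  rw [h0, ← h0, ← sum_add_distrib]
  have h1 : ∀ j ∈ range d, (q - 1 - dg q d (∑ j ∈ range d, dg q d l j * q ^ j) j) * q ^ j +
      dg q d l j * q ^ j = (q - 1) * q ^ j := by
    intro j _
    rw [h0, ← add_mul]
    congr 1
    have := dg_lt (d := d) hq l j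
    omega
  rw [sum_congr rfl h1, ← mul_sum]
  have h2 := Nat.geomSum_eq hq d
  rw [h2]
  exact Nat.mul_div_cancel' (Nat.sub_one_dvd_pow_sub_one q d)

include hq in
lemma dvd_es (hl : l < q ^ d) (hql : (q - 1) ∣ l) : (q - 1) ∣ es q d l := by
  have h1 : (q - 1) ∣ ∑ j ∈ range d, dg q d l j := by
    have h2 : l = ∑ j ∈ range d, dg q d l j + ∑ j ∈ range d, dg q d l j * (q ^ j - 1) := by
      rw [← sum_add_distrib]
      conv_lhs => rw [← sum_dg hq l hl]
      refine sum_congr rfl fun j _ => ?_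
      have : 1 ≤ q ^ j := Nat.one_le_pow _ _ (by omega)
      obtain ⟨m, hm⟩ : ∃ m, q ^ j = m + 1 := ⟨q ^ j - 1, by omega⟩
      rw [hm]; simp; ring
    have h3 : (q - 1) ∣ ∑ j ∈ range d, dg q d l j * (q ^ j - 1) :=
      dvd_sum fun j _ => (Nat.sub_one_dvd_pow_sub_one q j).mul_left _
    rw [h2] at hql
    exact (Nat.dvd_add_left h3).1 hql
  have h4 := es_add (d := d) hq l
  have h5 : (q - 1) ∣ es q d l + ∑ j ∈ range d, dg q d l j := by rw [h4]; exact Dvd.intro_left d rfl
  exact (Nat.dvd_add_left h1).1 h5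

include hq in
lemma es_pos (hl : l < q ^ d - 1) : 0 < es q d l := by
  rcases Nat.eq_zero_or_pos (es q d l) with h | h
  · exfalso
    rw [es, sum_eq_zero_iff] at h
    have h1 := sum_e_pow (d := d) hq l (by omega)
    rw [sum_eq_zero] at h1
    · omega
    · intro j hj
      rw [h j hj, zero_mul]
  · exact h

include hsign in
lemma Pk_eq (hdv : (q - 1) ∣ es q d l) :
    Datum.Pk q d θ l = ∏ j ∈ range d, (X - C (θ ^ (q ^ j))) ^ (q - 1 - dg q d l j) := by
  rw [Datum.Pk]
  have h1 : ∀ j ∈ range d, tp q θ j ^ (q - 1 - dg q d l j) =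
      (-1) ^ (q - 1 - dg q d l j) * (X - C (θ ^ (q ^ j))) ^ (q - 1 - dg q d l j) := by
    intro j _
    rw [← mul_pow]
    congr 1
    rw [tp]; ring
  rw [prod_congr rfl h1, prod_mul_distrib, prod_pow_eq_pow_sum]
  obtain ⟨n, hn⟩ := hdv
  have h2 : ∑ j ∈ range d, (q - 1 - dg q d l j) = (q - 1) * n := hn
  have h3 : (-1 : κ[X]) ^ (q - 1) = 1 := by
    have := congrArg C hsign
    rwa [C_pow, C_neg, C_1] at this
  rw [h2, pow_mul, h3, one_pow, one_mul]

end poly

section main

variable {k κ : Type*} [Field k] [Fintype k] [Field κ] [Fintype κ] [Algebra k κ]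
  (θ : κ) (w : k[X]) (hw : w.Monic)
  (hsurj : Function.Surjective (aeval θ : k[X] → κ)) (hwdvd : ∀ a : k[X], w ∣ a ↔ aeval θ a = 0)
  {p r : ℕ} [hp : Fact p.Prime] [CharP k p] (hqp : Fintype.card k = p ^ r)

lemma neg_one_pow_q (k κ : Type*) [Field k] [Fintype k] [Field κ] [Algebra k κ] :
    (-1 : κ) ^ (Fintype.card k - 1) = 1 := by
  have h1 : (-1 : k) ^ (Fintype.card k - 1) = 1 :=
    FiniteField.pow_card_sub_one_eq_one (-1 : k) (neg_ne_zero.2 one_ne_zero)
  have h2 := congrArg (algebraMap k κ) h1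
  rwa [map_pow, map_neg, map_one] at h2

include hwdvd in
lemma chi_eq {Om : Type*} [Field Om] [IsAlgClosed Om] [Algebra k Om] [Algebra κ Om] [IsScalarTower k κ Om]
    (l : ℕ) (hl : l < Fintype.card k ^ w.natDegree)
    (hdv : (Fintype.card k - 1) ∣ es (Fintype.card k) w.natDegree l) (c : k[X]) (hc : c.Monic) :
    GB.chi ((Datum.Pk (Fintype.card k) w.natDegree θ l).map (algebraMap κ Om)) c =
      algebraMap κ Om ((aeval θ c) ^ (Fintype.card k ^ w.natDegree - 1 - l)) := by
  have hq : 2 ≤ Fintype.card k := Fintype.one_lt_card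
  set q := Fintype.card k with hqd
  set d := w.natDegree with hdd
  have hsg := neg_one_pow_q k κ
  rw [← hqd] at hsg
  rw [Pk_eq θ l hsg hdv, GB.chi]
  have hsplit := (IsAlgClosed.splits (c.map (algebraMap k Om))).eq_prod_roots_of_monic (hc.map _)
  set s := (c.map (algebraMap k Om)).roots with hs
  have h1 : ∀ z, ((∏ j ∈ range d, (X - C (θ ^ (q ^ j))) ^ (q - 1 - dg q d l j)).map
      (algebraMap κ Om)).eval z = ∏ j ∈ range d, (z - algebraMap κ Om (θ ^ (q ^ j))) ^ (q - 1 - dg q d l j) := by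
    intro z
    rw [Polynomial.map_prod, eval_prod]
    refine prod_congr rfl fun j _ => ?_
    rw [Polynomial.map_pow, Polynomial.map_sub, map_X, map_C, eval_pow, eval_sub, eval_X, eval_C]
  rw [Multiset.map_congr rfl fun z _ => h1 z]
  have h2 : (s.map fun z => ∏ j ∈ range d, (z - algebraMap κ Om (θ ^ (q ^ j))) ^ (q - 1 - dg q d l j)).prod =
      ∏ j ∈ range d, ((s.map fun z => z - algebraMap κ Om (θ ^ (q ^ j))).prod) ^ (q - 1 - dg q d l j) := by
    rw [Multiset.prod_map_prod]
    refine prod_congr rfl fun j _ => ?_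
    rw [Multiset.prod_map_pow]
  have h3 : ∀ x : Om, (s.map fun z => z - x).prod = (-1) ^ (Multiset.card s) * (c.map (algebraMap k Om)).eval x := by
    intro x
    conv_rhs => rw [hsplit]
    rw [eval_multiset_prod, Multiset.map_map]
    clear_value s
    clear hsplit hs h1 h2
    induction s using Multiset.induction_on with
    | empty => simp
    | cons a s ih =>
      rw [Multiset.map_cons, Multiset.prod_cons, ih, Multiset.map_cons, Multiset.prod_cons, Multiset.card_cons,
        pow_succ]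
      simp only [Function.comp_apply, eval_sub, eval_X, eval_C]
      ring
  rw [h2]
  have h4 : ∀ j ∈ range d, ((s.map fun z => z - algebraMap κ Om (θ ^ (q ^ j))).prod) ^ (q - 1 - dg q d l j) =
      ((-1) ^ (Multiset.card s)) ^ (q - 1 - dg q d l j) *
        (algebraMap κ Om (aeval θ c)) ^ ((q - 1 - dg q d l j) * q ^ j) := by
    intro j _
    rw [h3, mul_pow]
    congr 1
    have h5 : (c.map (algebraMap k Om)).eval (algebraMap κ Om (θ ^ (q ^ j))) =
        algebraMap κ Om (aeval θ c) ^ (q ^ j) := by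
      rw [← map_pow, hqd, aeval_pow_card, eval_map_algebraMap, aeval_algebraMap_apply]
    rw [h5, ← pow_mul, mul_comm]
  rw [prod_congr rfl h4, prod_mul_distrib, prod_pow_eq_pow_sum, prod_pow_eq_pow_sum]
  obtain ⟨n, hn⟩ := hdv
  have h6 : ∑ j ∈ range d, (q - 1 - dg q d l j) = (q - 1) * n := hn
  have h7 : (-1 : Om) ^ (q - 1) = 1 := by
    have := neg_one_pow_q k Om
    rwa [← hqd] at this
  have h8 : ∑ j ∈ range d, (q - 1 - dg q d l j) * q ^ j = q ^ d - 1 - l := by
    have := sum_e_pow (d := d) hq l hl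
    omega
  rw [h6, h8, ← pow_mul, mul_comm (Multiset.card s), mul_assoc, pow_mul, h7, one_pow, one_mul, map_pow]

include hw hwdvd hqp in
theorem two_sol (l : ℕ) (hl0 : 0 < l) (hl : l < Fintype.card κ - 1) (hql : (Fintype.card k - 1) ∣ l)
    [Fintype κˣ] [DecidableEq κˣ]
    (hdvd : (GA.rho (Fintype.card k) w).map (GA.mp k κ) ∣ GA.Ht (Fintype.card k) l w (GA.rd θ w hsurj)) :
    ∃ f g : κ[X], GB.cq (Fintype.card k) (Datum.Pk (Fintype.card k) w.natDegree θ l * f) = f ∧
      GB.cq (Fintype.card k) (Datum.Pk (Fintype.card k) w.natDegree θ l * g) = g ∧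
      LinearIndependent κ ![f, g] := by
  have hq : 2 ≤ Fintype.card k := Fintype.one_lt_card
  have hwd : 1 ≤ w.natDegree := natDegree_pos θ w hw hwdvd
  have hcard := card_kap θ w hw hsurj hwdvd
  have hl' : l < Fintype.card k ^ w.natDegree - 1 := by rw [← hcard]; exact hl
  have hdv := dvd_es (d := w.natDegree) hq l (by omega) hql
  obtain ⟨n, hn⟩ := hdv
  have hpos := es_pos (d := w.natDegree) hq l hl'
  have hn1 : 1 ≤ n := by
    rcases Nat.eq_zero_or_pos n with h | h
    · rw [h, mul_zero] at hn; omega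
    · exact h
  let Om := AlgebraicClosure κ
  have : IsScalarTower k κ Om := inferInstance
  have hA := GA.pieceA (Om := Om) θ w hw hwd hsurj hwdvd hqp l hl0 hl hql hdvd n
  obtain ⟨J0, hJ0⟩ := hA
  have hPk := Pk_eq θ l (neg_one_pow_q k κ) ⟨n, hn⟩
  set P := (Datum.Pk (Fintype.card k) w.natDegree θ l).map (algebraMap κ Om) with hP
  have hmon0 : (Datum.Pk (Fintype.card k) w.natDegree θ l).Monic := by
    rw [hPk]
    exact monic_prod_of_monic _ _ fun j _ => (monic_X_sub_C _).pow _
  have hmon : P.Monic := hmon0.map _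
  have hdeg : P.natDegree = n * (Fintype.card k - 1) := by
    rw [hP, hmon0.natDegree_map, hPk, natDegree_prod_of_monic _ _ fun j _ => (monic_X_sub_C _).pow _]
    have h1 : ∀ j ∈ range w.natDegree, ((X - C (θ ^ (Fintype.card k ^ j))) ^
        (Fintype.card k - 1 - dg (Fintype.card k) w.natDegree l j)).natDegree =
        Fintype.card k - 1 - dg (Fintype.card k) w.natDegree l j := by
      intro j _
      rw [(monic_X_sub_C _).natDegree_pow, natDegree_X_sub_C, mul_one]
    rw [sum_congr rfl h1, mul_comm]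
    exact hn
  obtain ⟨f, g, _, _, hf, hg, hind⟩ := GB.pieceB hn1 hmon hdeg (fun m hm => ⟨J0, fun J hJ => by
    rw [← hJ0 J hJ m hm]
    refine sum_congr rfl fun j _ => sum_congr rfl fun a _ => ?_
    rw [chi_eq θ w hwdvd l (by omega) ⟨n, hn⟩ _ (GB.mon_monic a), hcard]⟩)
  exact two_sol_descend (by omega) _ f g hf hg hind

end main

end Pool.Agent.D0H54.GE
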