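import Pool.Agent.D0H54.GE.Units
import Pool.Agent.D0H54.GE.Desc
import Pool.Agent.D0H54.GE.TwoSol
import Pool.Agent.D0H54.GC.Eigen
import Pool.Agent.D0H54.GD.Beta
import Pool.Agent.D0H54.GE.Defs

set_option linter.unusedSectionVars false

namespace Pool.Agent.D0H54.GE

open Polynomial Finset Gk GC TensorProduct


section eigen

variable {k : Type*} [Field k] [Fintype k] {F : Type*} [Field F] [Algebra (RatFunc k) F]
  [FiniteDimensional (RatFunc k) F] [Algebra k[X] F] [IsScalarTower k[X] (RatFunc k) F]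

lemma component_ne (p : ℕ) [Fact p.Prime] {κ : Type*} [Field κ] [Fintype κ] [Fintype κˣ] [CharP κ p]
    (pr : k[X] →+* κ) (O : Type*)
    [CommRing O] [IsDomain O] [Algebra k[X] O] [Algebra O F] [IsScalarTower k[X] O F]
    [IsIntegralClosure O k[X] F] (Λ : F) (l : ℕ)
    (hpr0 : ∀ (σ : F ≃ₐ[RatFunc k] F) (a : k[X]), σ Λ = cAct k a Λ → pr a ≠ 0)
    (β : κ →+ Additive (ClassGroup O)) (hβ : β ≠ 0) (hpβ : ∀ c, p • β c = 0)
    (heq : ∀ (σ : F ≃ₐ[RatFunc k] F) (a : k[X]), σ Λ = cAct k a Λ →
      ∀ c, galClass O σ (β c).toMul = (β ((pr a) ^ l * c)).toMul) :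
    component p pr O Λ l ≠ ⊥ := by
  have hmem : ∀ c, (β c).toMul ∈ pPart (ClassGroup O) p := by
    intro c
    refine ⟨1, ?_⟩
    rw [pow_one]
    exact congrArg Additive.toMul (hpβ c)
  let b : κ →+ Additive (pPart (ClassGroup O) p) :=
    { toFun := fun c => Additive.ofMul ⟨(β c).toMul, hmem c⟩
      map_zero' := by
        apply Additive.toMul.injective
        apply Subtype.ext
        change (β 0).toMul = 1
        rw [map_zero]; rfl
      map_add' := fun c c' => by
        apply Additive.toMul.injective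
        apply Subtype.ext
        change (β (c + c')).toMul = (β c).toMul * (β c').toMul
        rw [map_add]; rfl }
  have hb : b ≠ 0 := by
    intro h
    apply hβ
    ext c
    have h1 := congrArg (fun f : κ →+ _ => ((f c).toMul : ClassGroup O)) h
    exact h1
  have hx := eigen_ne_zero (p := p) b hb
  intro hbot
  have h0 : ∀ x : WT p κ (ClassGroup O), (∀ (σ : F ≃ₐ[RatFunc k] F) (a : k[X]), σ Λ = cAct k a Λ →
      WTmap p κ (galClass O σ) x = WittVector.teichmuller p (pr a) ^ l • x) → x = 0 := by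
    intro x hx
    rw [← Submodule.mem_bot (WittVector p κ), ← hbot, component]
    simp only [Submodule.mem_iInf]
    intro σ a hσ
    rw [Module.End.mem_eigenspace_iff]
    exact hx σ a hσ
  refine hx (h0 _ ?_)
  intro σ a hσ
  have ha := hpr0 σ a hσ
  exact eigen_action (p := p) b l (MonoidHom.toAdditive (pPartMap p (galClass O σ))) (Units.mk0 (pr a) ha)
    (fun c => by
      apply Additive.toMul.injective
      apply Subtype.ext
      exact heq σ a hσ c)

end eigen

section main

variable {k κ : Type*} [Field k] [Fintype k] [Field κ] [Fintype κ]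

/-- The main theorem, with the divisibility assumed only for the orbit of `l` under multiplication by
`q = |k|`. -/
theorem main_q (p : ℕ) [Fact p.Prime] [CharP k p]
    (w : k[X]) (hw : w.Monic) (pr : k[X] →+* κ) (hpr : Function.Surjective pr)
    (hker : RingHom.ker pr = Ideal.span {w})
    {F : Type*} [Field F] [Algebra (RatFunc k) F] [FiniteDimensional (RatFunc k) F] [Algebra k[X] F]
    [IsScalarTower k[X] (RatFunc k) F]
    {O : Type*} [CommRing O] [IsDomain O] [Algebra k[X] O] [Algebra O F] [IsScalarTower k[X] O F]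
    [IsIntegralClosure O k[X] F]
    (lam : F) (hlam : lam ≠ 0) (htor : cAct k w lam = 0)
    (hgen : IntermediateField.adjoin (RatFunc k) {lam} = ⊤)
    (l : ℕ) (hl0 : 0 < l) (hl : l < Fintype.card κ - 1) (heven : Fintype.card k - 1 ∣ l)
    (hB : ∀ l' : ℕ, 0 < l' → l' < Fintype.card κ - 1 →
      (∃ m : ℕ, l' ≡ Fintype.card k ^ m * l [MOD Fintype.card κ - 1]) → DivBy w (bC k l')) :
    component p pr O lam l ≠ ⊥ := by
  classical
  let _ : Algebra k κ := (pr.comp C).toAlgebra
  set θ : κ := pr X with hθ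
  have hae : ∀ f : k[X], aeval θ f = pr f := by
    intro f
    have : (aeval θ : k[X] →ₐ[k] κ).toRingHom = pr := by
      ext c
      · simp; rfl
      · simp [hθ]
    exact congrArg (fun g : k[X] →+* κ => g f) this
  have hsurj : Function.Surjective (aeval θ : k[X] → κ) := by
    intro x
    obtain ⟨f, hf⟩ := hpr x
    exact ⟨f, by rw [hae, hf]⟩
  have hwdvd : ∀ a : k[X], w ∣ a ↔ aeval θ a = 0 := by
    intro a
    rw [hae, ← RingHom.mem_ker, hker, Ideal.mem_span_singleton]
  have hwprime : Prime w := by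
    rw [← Ideal.span_singleton_prime hw.ne_zero, ← hker]
    exact RingHom.ker_isPrime pr
  have hirr : Irreducible w := hwprime.irreducible
  obtain ⟨rep, hrep⟩ : ∃ rep : κ → k[X], ∀ a, aeval θ (rep a) = a :=
    ⟨Function.surjInv hsurj, Function.surjInv_eq hsurj⟩
  have hcard := card_kap θ w hw hsurj hwdvd
  have hd : 1 ≤ w.natDegree := natDegree_pos θ w hw hwdvd
  have hq2 : 2 ≤ Fintype.card k := Fintype.one_lt_card
  have hp1 : p.Prime := Fact.out
  obtain ⟨⟨r, hr⟩, _, h2⟩ := FiniteField.card k p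
  have hq : Fintype.card k = p ^ r := h2
  have : CharP κ p := charP_of_injective_ringHom (algebraMap k κ).injective p
  have : CharP F p := charP_of_injective_ringHom
    (f := (algebraMap (RatFunc k) F).comp RatFunc.C) (RingHom.injective _) p
  have : PerfectRing k p := inferInstance
  let E := SeparableClosure (RatFunc k)
  have : CharP E p := charP_of_injective_ringHom
    (f := (algebraMap (RatFunc k) E).comp RatFunc.C) (RingHom.injective _) p
  have hFsep : Algebra.IsSeparable (RatFunc k) F := F_separable k w hw.ne_zero lam htor hgen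
  let j : F →ₐ[RatFunc k] E := IsSepClosed.lift
  obtain ⟨io, hio⟩ : ∃ io : κ →+* E, ∀ c : k, io (algebraMap k κ c) = al k E (C c) := by
    let _ : Algebra k E := ((al k E).comp C).toAlgebra
    let io : κ →ₐ[k] E := IsSepClosed.lift
    exact ⟨io.toRingHom, fun c => io.commutes c⟩
  obtain ⟨D, hD⟩ := exists_derivation k E
  have hD' : ∀ f : k[X], D (al k E f) = al k E (derivative f) := hD
  have hDT : D (al k E X) = 1 := by rw [hD', derivative_X, map_one]
  have hdec : ∀ x : E, Dec p (al k E X) x := by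
    intro x
    rw [al_X]
    exact dec_all p k x
  obtain ⟨DF, hDF0⟩ := exists_derivation k F
  have hDF : ∀ f : k[X], DF (al k F f) = al k F (derivative f) := hDF0
  have hDTF : DF (al k F X) = 1 := by rw [hDF, derivative_X, map_one]
  have hdecF : ∀ x : F, Dec p (al k F X) x := by
    intro x
    rw [al_X]
    exact dec_all p k x
  have hjlam : j lam ≠ 0 := by
    intro h; rw [map_eq_zero] at h; exact hlam h
  have hjtor : cAct k w (j lam) = 0 := by rw [cAct_map, htor, map_zero]
  obtain ⟨M, hMc, hMio⟩ := exists_datum θ w hw hsurj hwdvd io hio (j lam) hjlam hjtor rep hrep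
  have hLne : ∀ a : κ, a ≠ 0 → LL (k := k) (j lam) rep a ≠ 0 := fun a ha =>
    LL_ne θ w hsurj hwdvd (j lam) hjlam hjtor rep hrep ha
  let φ : κ →+* κ := iterateFrobenius κ p r
  have hφ : ∀ x, φ x = x ^ Fintype.card k := fun x => by
    rw [hq]; exact iterateFrobenius_def p r x
  have hl' : l < Fintype.card k ^ w.natDegree - 1 := by rw [← hcard]; exact hl
  have hrel := exists_rel θ w hwdvd (j lam) hjtor rep hrep D hD'
  have hmap := w_map θ w hw hsurj hwdvd
  have hBrot : ∀ i, DivBy w (bC k ((rot (Fintype.card k) w.natDegree)^[i] l)) := by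
    intro i
    obtain ⟨m, hm⟩ := rot_iter_modEq hq2 hd l (by omega) i
    refine hB _ ?_ ?_ ⟨m, by rw [hcard]; exact hm⟩
    · clear hm
      induction i with
      | zero => exact hl0
      | succ i ih =>
        rw [Function.iterate_succ_apply']
        exact rot_pos hq2 _ ih (rot_iter_lt hq2 l i (by omega))
    · rw [hcard]
      clear hm
      induction i with
      | zero => exact hl'
      | succ i ih =>
        rw [Function.iterate_succ_apply']
        exact rot_lt_N hq2 hd _ ih
  have hH := M.H_zero D hDT hdec hq hcard hd hLne (th_ne θ w hw hsurj hwdvd) w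
    hmap (fun a => by rw [hwdvd, eval_map_algebraMap]) hrel hMc l hl0 hl' hBrot φ hφ
  -- the universal polynomial is divisible
  have hioC : ∀ c : k, M.io (algebraMap k κ c) = al k E (C c) := by rw [hMio]; exact hio
  have hDio : ∀ a, D (M.io a) = 0 := by
    intro a
    obtain ⟨b, rfl⟩ := (PerfectRing.bijective_frobenius (R := κ) (p := p)).surjective a
    change D (M.io (b ^ p)) = 0
    rw [map_pow]
    exact D_powp p D _
  have hadd : ∀ a b, LL (k := k) (j lam) rep (a + b) = LL (k := k) (j lam) rep a + LL (k := k) (j lam) rep b := by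
    intro a b
    have h1 : a + b = aeval θ (rep a + rep b) := by rw [map_add, hrep, hrep]
    rw [h1, LL_aeval θ w hwdvd (j lam) hjtor rep hrep, cAct_add]
    rfl
  have hsmul : ∀ (c : k) a, LL (k := k) (j lam) rep (algebraMap k κ c * a) =
      M.io (algebraMap k κ c) * LL (k := k) (j lam) rep a := by
    intro c a
    have h1 : algebraMap k κ c * a = aeval θ (C c * rep a) := by rw [map_mul, aeval_C, hrep]
    rw [h1, LL_aeval θ w hwdvd (j lam) hjtor rep hrep, cAct_mul, cAct_C, hioC, al_C]
    rfl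
  have hact : ∀ a, LL (k := k) (j lam) rep (θ * a) = al k E X * LL (k := k) (j lam) rep a +
      LL (k := k) (j lam) rep a ^ Fintype.card k :=
    LL_theta θ w hwdvd (j lam) hjtor rep hrep
  have hdvd := GA.rho_dvd_Ht M hq hq2 hcard hd D hDT hadd hsmul hact hLne hDio w hw rfl
    ((hwdvd w).1 dvd_rfl) (GA.rd θ w hsurj) (GA.rd_aeval θ w hsurj hwdvd) l hH
  obtain ⟨f1, f2, hf1, hf2, hind⟩ := two_sol θ w hw hsurj hwdvd hq l hl0 hl heven hdvd
  -- the ring of integers
  have halg : ∀ a : k[X], algebraMap k[X] F a = al k F a := fun a => by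
    rw [IsScalarTower.algebraMap_apply k[X] (RatFunc k) F, al_apply]
  have halg' : algebraMap k[X] F = al k F := RingHom.ext halg
  have hDed : IsDedekindDomain O := IsIntegralClosure.isDedekindDomain k[X] (RatFunc k) F O
  have hFr : IsFractionRing O F :=
    IsIntegralClosure.isFractionRing_of_finite_extension k[X] (RatFunc k) F O
  have hMfin : Module.Finite k[X] O := IsIntegralClosure.finite k[X] (RatFunc k) F O
  have hfq : Ring.HasFiniteQuotients O := by
    have := hfq_poly k
    exact Ring.HasFiniteQuotients.of_module_finite k[X] O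
  have hint : ∀ x : F, IsI k x ↔ ∃ y : O, algebraMap O F y = x := by
    intro x
    have h1 : IsI k x ↔ IsIntegral k[X] x := by
      unfold IsIntegral
      rw [halg']
    rw [h1]
    exact IsIntegralClosure.isIntegral_iff
  let sO : (F ≃ₐ[RatFunc k] F) → (O ≃+* O) := fun σ => (galRestrict k[X] (RatFunc k) F O σ).toRingEquiv
  have hsO : ∀ σ x, algebraMap O F (sO σ x) = σ (algebraMap O F x) := fun σ x =>
    algebraMap_galRestrict_apply k[X] σ x
  have hpr0 : ∀ (σ : F ≃ₐ[RatFunc k] F) (a : k[X]), σ lam = cAct k a lam → pr a ≠ 0 := by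
    intro σ a hσ h0
    rw [← hae, ← hwdvd] at h0
    rw [(cAct_eq_zero_iff w hirr lam hlam htor a).2 h0, map_eq_zero] at hσ
    exact hlam hσ
  by_contra hbot
  -- every solution gives units
  have key : ∀ f : κ[X], GB.cq (Fintype.card k) (Datum.Pk (Fintype.card k) w.natDegree θ l * f) = f →
      ∃ (h : κ → F) (e : κ → Oˣ),
      (∀ (σ : F ≃ₐ[RatFunc k] F) (g : k[X]), σ lam = cAct k g lam →
        ∀ c, σ (h c) = h ((aeval θ g) ^ l * c)) ∧
      (∀ c, DF (algebraMap O F (e c : O)) = h c * algebraMap O F (e c : O)) ∧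
      (∑ c : κˣ, (M.io (c : κ))⁻¹ * j (h (c : κ)) = - om M hcard hd hq2 φ hφ l 0 f) := by
    intro f hf
    obtain ⟨h, hh1, hh2, hh3, hh4, hh5⟩ := exists_hF j w hw hirr lam hlam htor hgen θ hsurj hwdvd rep hrep M
      hioC hcard hd hq2 φ hφ p D hDT hdec DF hDF hDTF hdecF hq hr l (by omega) f hf
    obtain ⟨g, hg0, hg⟩ := exists_g0 (O := O) p DF hDTF hdecF h hh2
    obtain ⟨β, hβ1, hβ2, hβ3⟩ := GD.exists_beta (F := F) p hp1.ne_zero g hg0
      (fun c c' => g_add p DF hDTF hdecF h hh1 g hg0 hg c c')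
      (exists_ideal hfq hint w hw hirr lam hlam htor hgen sO hsO θ hwdvd rep hrep p DF hDF hDTF hdecF l hl0 hl
        h hh1 hh3 hh4 g hg0 hg)
    have hβ0 : β = 0 := by
      by_contra hne
      refine component_ne p pr O lam l hpr0 β hne hβ1 ?_ hbot
      intro σ a hσ c
      have h3 := hβ3 (sO σ) c ((aeval θ a) ^ l * c) (g_sigma lam sO hsO θ p DF hDTF hdecF l h hh4 g hg0 hg σ a hσ c)
      rw [hae] at h3
      exact h3
    have hex : ∀ c, ∃ (e : Oˣ) (x y : O), x ≠ 0 ∧ y ≠ 0 ∧ g c * x ^ p = e * y ^ p := fun c =>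
      hβ2 c (by rw [hβ0]; rfl)
    choose e x y hx hy hxy using hex
    refine ⟨h, e, hh4, ?_, hh5⟩
    intro c
    have hinj := IsFractionRing.injective O F
    have hy1 : algebraMap O F (y c) ≠ 0 := fun h0 => hy c (hinj (by rw [h0, map_zero]))
    have h1 := congrArg (algebraMap O F) (hxy c)
    rw [map_mul, map_mul, map_pow, map_pow] at h1
    have h3 := congrArg DF h1
    rw [Derivation.leibniz, Derivation.leibniz, D_powp, D_powp, smul_zero, zero_add, smul_zero, zero_add,
      smul_eq_mul, smul_eq_mul, hg] at h3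
    have h4 : algebraMap O F (y c) ^ p * (DF (algebraMap O F (e c : O)) - h c * algebraMap O F (e c : O)) = 0 := by
      linear_combination (-1 : F) * h3 + h c * h1
    rcases mul_eq_zero.1 h4 with h5 | h5
    · exact absurd h5 (pow_ne_zero _ hy1)
    · exact sub_eq_zero.1 h5
  obtain ⟨μ, hμ⟩ := unit_main w hw hirr lam hlam htor hgen θ hwdvd rep hrep p hint sO hsO DF hDTF hdecF l
    M.io (j : F →+* E)
  have key2 : ∀ f : κ[X], GB.cq (Fintype.card k) (Datum.Pk (Fintype.card k) w.natDegree θ l * f) = f →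
      ∃ c0 : κ, om M hcard hd hq2 φ hφ l 0 f = M.io c0 * μ := by
    intro f hf
    obtain ⟨h, e, h1, h2, h3⟩ := key f hf
    obtain ⟨c0, hc0⟩ := hμ h h1 e h2
    refine ⟨-c0, ?_⟩
    have h4 : ∑ c : κˣ, (M.io (c : κ))⁻¹ * j (h (c : κ)) = M.io c0 * μ := hc0
    rw [h3] at h4
    rw [map_neg, neg_mul, ← h4, neg_neg]
  obtain ⟨c1, hc1⟩ := key2 f1 hf1
  obtain ⟨c2, hc2⟩ := key2 f2 hf2
  -- contradiction with the independence
  have hP1 := M.P1_ne
  have hLa := M.La_ne hq2 l
  have hcomb : (C c2 * f1 - C c1 * f2).eval₂ M.io (al k E X) = 0 := by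
    have e1 : ∀ f : κ[X], om M hcard hd hq2 φ hφ l 0 f = f.eval₂ M.io (al k E X) * M.La l /
        (P1 (Fintype.card k) w.natDegree θ).eval₂ M.io (al k E X) := fun f => rfl
    have e2 : M.io c2 * om M hcard hd hq2 φ hφ l 0 f1 - M.io c1 * om M hcard hd hq2 φ hφ l 0 f2 = 0 := by
      rw [hc1, hc2]; ring
    rw [e1, e1] at e2
    have e3 : (C c2 * f1 - C c1 * f2).eval₂ M.io (al k E X) * (M.La l /
        (P1 (Fintype.card k) w.natDegree θ).eval₂ M.io (al k E X)) = 0 := by
      rw [eval₂_sub, eval₂_mul, eval₂_mul, eval₂_C, eval₂_C, ← e2]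
      ring
    rcases mul_eq_zero.1 e3 with e | e
    · exact e
    · exact absurd e (div_ne_zero hLa hP1)
  have hzero := M.hT _ hcomb
  rw [LinearIndependent.pair_iff] at hind
  have h3 := hind c2 (-c1) (by
    rw [smul_eq_C_mul, smul_eq_C_mul, C_neg]
    linear_combination hzero)
  have hc1' : c1 = 0 := neg_eq_zero.1 h3.2
  rw [hc1', map_zero, zero_mul] at hc1
  have h4 : f1.eval₂ M.io (al k E X) = 0 := by
    have e1 : om M hcard hd hq2 φ hφ l 0 f1 = f1.eval₂ M.io (al k E X) * M.La l /
        (P1 (Fintype.card k) w.natDegree θ).eval₂ M.io (al k E X) := rfl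
    rw [e1] at hc1
    rcases div_eq_zero_iff.1 hc1 with h | h
    · rcases mul_eq_zero.1 h with h | h
      · exact h
      · exact absurd h hLa
    · exact absurd h hP1
  have h5 := M.hT _ h4
  have h6 := hind 1 0 (by rw [h5]; simp)
  exact one_ne_zero h6.1

/-- **Gekeler's conjecture.** -/
theorem main_p (p : ℕ) [Fact p.Prime] [CharP k p]
    (w : k[X]) (hw : w.Monic) (pr : k[X] →+* κ) (hpr : Function.Surjective pr)
    (hker : RingHom.ker pr = Ideal.span {w})
    {F : Type*} [Field F] [Algebra (RatFunc k) F] [FiniteDimensional (RatFunc k) F] [Algebra k[X] F]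
    [IsScalarTower k[X] (RatFunc k) F]
    {O : Type*} [CommRing O] [IsDomain O] [Algebra k[X] O] [Algebra O F] [IsScalarTower k[X] O F]
    [IsIntegralClosure O k[X] F]
    (lam : F) (hlam : lam ≠ 0) (htor : cAct k w lam = 0)
    (hgen : IntermediateField.adjoin (RatFunc k) {lam} = ⊤)
    (l : ℕ) (hl0 : 0 < l) (hl : l < Fintype.card κ - 1) (heven : Fintype.card k - 1 ∣ l)
    (hB : ∀ l' : ℕ, 0 < l' → l' < Fintype.card κ - 1 →
      (∃ m : ℕ, l' ≡ p ^ m * l [MOD Fintype.card κ - 1]) → DivBy w (bC k l')) :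
    component p pr O lam l ≠ ⊥ := by
  obtain ⟨⟨r, hr⟩, _, h2⟩ := FiniteField.card k p
  have hq : Fintype.card k = p ^ r := h2
  refine main_q p w hw pr hpr hker lam hlam htor hgen l hl0 hl heven fun l' h1 h3 h4 => ?_
  obtain ⟨m, hm⟩ := h4
  exact hB l' h1 h3 ⟨r * m, by rw [hq, ← pow_mul] at hm; exact hm⟩

end main

end Pool.Agent.D0H54.GE
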