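import Pool.Agent.D0H54.GE.Omega

set_option linter.unusedSectionVars false

namespace Pool.Agent.D0H54.GE

open Polynomial Finset Gk

variable {κ E : Type*} [Field κ] [Fintype κ] [Field E] {q d : ℕ} {T : E} {th : κ} {L : κ → E}
  (M : Datum q d T th L)
variable (hcard : Fintype.card κ = q ^ d) (hd : 1 ≤ d) (hq : 2 ≤ q) (φ : κ →+* κ) (hφ : ∀ x, φ x = x ^ q)

include hq in
lemma dvd_iff_eq {i j : ℕ} (hi : i < d) (hj : j < d) :
    (q ^ d - 1) ∣ (q ^ d - 1 - q ^ i + q ^ j) ↔ i = j := by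
  have h1 : ∀ i < d, q ^ i ≤ q ^ d - 1 := by
    intro i hi
    have : q ^ i < q ^ d := Nat.pow_lt_pow_right (by omega) hi
    omega
  have hpos : ∀ i, 0 < q ^ i := fun i => Nat.pow_pos (by omega)
  constructor
  · rintro ⟨m, hm⟩
    have h2 := h1 i hi
    have h3 := h1 j hj
    have h4 := hpos i
    have h5 := hpos j
    have h6 : m < 2 := by
      by_contra hcon
      have : (q ^ d - 1) * 2 ≤ (q ^ d - 1) * m := Nat.mul_le_mul_left _ (by omega)
      omega
    have h7 : 0 < m := by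
      rcases Nat.eq_zero_or_pos m with h | h
      · rw [h, mul_zero] at hm; omega
      · exact h
    have h8 : m = 1 := by omega
    rw [h8, mul_one] at hm
    have h9 : q ^ i = q ^ j := by omega
    exact Nat.pow_right_injective hq h9
  · rintro rfl
    have := h1 i hi
    rw [Nat.sub_add_cancel this]

include hcard hq in
/-- Fourier inversion of the coordinates -/
lemma coord [Fintype κˣ] (y : ℕ → E) (F : κ → E)
    (h : ∀ a, F a = ∑ j ∈ range d, M.io a ^ (q ^ j) * y j) (i : ℕ) (hi : i < d) :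
    y i = - ∑ a : κˣ, M.io (a : κ) ^ (q ^ d - 1 - q ^ i) * F a := by
  have h1 : ∀ a : κˣ, M.io (a : κ) ^ (q ^ d - 1 - q ^ i) * F a =
      ∑ j ∈ range d, M.io (a : κ) ^ (q ^ d - 1 - q ^ i + q ^ j) * y j := by
    intro a
    rw [h, mul_sum]
    exact sum_congr rfl fun j _ => by rw [pow_add]; ring
  simp_rw [h1]
  rw [sum_comm]
  have h2 : ∀ j ∈ range d, ∑ a : κˣ, M.io (a : κ) ^ (q ^ d - 1 - q ^ i + q ^ j) * y j =
      if j = i then - y i else 0 := by
    intro j hj
    rw [← sum_mul]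
    have h4 : ∑ c : κˣ, M.io (c : κ) ^ (q ^ d - 1 - q ^ i + q ^ j) =
        if (q ^ d - 1) ∣ (q ^ d - 1 - q ^ i + q ^ j) then -1 else 0 := by
      classical
      have h5 := M.sum_io_pow hcard (q ^ d - 1 - q ^ i + q ^ j)
      rw [← h5]
      exact Finset.sum_congr (by ext x; simp) (fun _ _ => rfl)
    rw [h4]
    by_cases hij : j = i
    · rw [if_pos ((dvd_iff_eq hq hi (mem_range.1 hj)).2 hij.symm), if_pos hij, hij]; ring
    · rw [if_neg (fun h => hij ((dvd_iff_eq hq hi (mem_range.1 hj)).1 h).symm), if_neg hij, zero_mul]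
  rw [sum_congr rfl h2, sum_ite_eq' (range d) i, if_pos (mem_range.2 hi), neg_neg]

variable (τ : E →+* E) (hτT : τ T = T) (t : ℕ) (hτio : ∀ a, τ (M.io a) = M.io a ^ (q ^ t))
  (b : κ) (hτL : ∀ a, τ (L a) = L (a * b))

include hτio hτL in
lemma tau_g_lt (j : ℕ) (hj : j < d) : τ (M.g j) = (sh M hcard hd hq φ hφ t).io b ^ (q ^ j) * (sh M hcard hd hq φ hφ t).g j := by
  classical
  have h1 := coord (sh M hcard hd hq φ hφ t) hcard hq (fun j => τ (M.g j)) (fun a => L (a * b)) (fun a => by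
    rw [← hτL, M.hL, map_sum]
    refine sum_congr rfl fun j _ => ?_
    rw [map_mul, map_pow, hτio, sh_io]) j hj
  have h2 := coord (sh M hcard hd hq φ hφ t) hcard hq (fun j => (sh M hcard hd hq φ hφ t).io b ^ (q ^ j) * (sh M hcard hd hq φ hφ t).g j) (fun a => L (a * b)) (fun a => by
    rw [(sh M hcard hd hq φ hφ t).hL]
    refine sum_congr rfl fun j _ => ?_
    rw [map_mul, mul_pow, mul_assoc]) j hj
  exact h1.trans h2.symm

include hτio hτL in
lemma tau_g (j : ℕ) : τ (M.g j) = (sh M hcard hd hq φ hφ t).io b ^ (q ^ j) * (sh M hcard hd hq φ hφ t).g j := by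
  induction j using Nat.strong_induction_on with
  | _ j ih =>
    by_cases hj : j < d
    · exact tau_g_lt M hcard hd hq φ hφ τ t hτio b hτL j hj
    · obtain ⟨i, rfl⟩ : ∃ i, j = i + d := ⟨j - d, by omega⟩
      have e : (sh M hcard hd hq φ hφ t).io b ^ (q ^ (i + d)) = (sh M hcard hd hq φ hφ t).io b ^ (q ^ i) := by
        rw [pow_add, mul_comm (q ^ i), pow_mul, ← map_pow _ b (q ^ d), M.th_pow hcard]
      rw [M.hper, (sh M hcard hd hq φ hφ t).hper, ih i (by omega), e]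

include hτio in
lemma tau_sh_io (s : ℕ) (a : κ) : τ ((sh M hcard hd hq φ hφ s).io a) = (sh M hcard hd hq φ hφ (s + t)).io a := by
  rw [sh_io, sh_io, map_pow, hτio, ← pow_mul, ← pow_add, add_comm]

include hτio hτL in
lemma tau_sh_g (s j : ℕ) : τ ((sh M hcard hd hq φ hφ s).g j) = (sh M hcard hd hq φ hφ (s + t)).io b ^ (q ^ j) * (sh M hcard hd hq φ hφ (s + t)).g j := by
  rw [sh_g, tau_g M hcard hd hq φ hφ τ t hτio b hτL, sh_g, sh_g, sh_io, sh_io, ← pow_mul, ← pow_mul,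
    ← pow_add, ← pow_add]
  congr 2
  · congr 1; ring
  · ring

include hτio hτL in
lemma tau_La (l : ℕ) (hl : l < q ^ d) (s : ℕ) :
    τ ((sh M hcard hd hq φ hφ s).La l) = (sh M hcard hd hq φ hφ (s + t)).io (b ^ l) * (sh M hcard hd hq φ hφ (s + t)).La l := by
  rw [Datum.La_eq_dg _ hcard hd hq φ hφ, Datum.La_eq_dg _ hcard hd hq φ hφ, map_prod]
  have h1 : (sh M hcard hd hq φ hφ (s + t)).io (b ^ l) = ∏ j ∈ range d, ((sh M hcard hd hq φ hφ (s + t)).io b ^ (q ^ j)) ^ dg q d l j := by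
    conv_lhs => rw [← sum_dg hq l hl]
    rw [← prod_pow_eq_pow_sum, map_prod]
    refine prod_congr rfl fun j _ => ?_
    rw [map_pow, ← pow_mul, mul_comm]
  rw [h1, ← prod_mul_distrib]
  refine prod_congr rfl fun j _ => ?_
  rw [map_pow, tau_sh_g M hcard hd hq φ hφ τ t hτio b hτL, mul_pow]

include hτio hτT in
lemma tau_eval (f : κ[X]) (s : ℕ) : τ (f.eval₂ (sh M hcard hd hq φ hφ s).io T) = f.eval₂ (sh M hcard hd hq φ hφ (s + t)).io T := by
  rw [hom_eval₂, hτT]
  congr 1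
  ext a
  exact tau_sh_io M hcard hd hq φ hφ τ t hτio s a

include hτio hτL hτT in
lemma tau_om (l : ℕ) (hl : l < q ^ d) (f : κ[X]) (s : ℕ) :
    τ (om M hcard hd hq φ hφ l s f) = (sh M hcard hd hq φ hφ (s + t)).io (b ^ l) * om M hcard hd hq φ hφ l (s + t) f := by
  have h1 : τ ((P1 q d th).eval₂ M.io T) = (P1 q d th).eval₂ M.io T := by
    have := tau_eval M hcard hd hq φ hφ τ hτT t hτio (P1 q d th) 0
    rw [sh_P1, sh_P1] at this
    exact this
  rw [om, om, map_div₀, map_mul, h1, tau_La M hcard hd hq φ hφ τ t hτio b hτL l hl,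
    tau_eval M hcard hd hq φ hφ τ hτT t hτio]
  ring

include hτio hτL hτT in
lemma tau_yc (l : ℕ) (hl : l < q ^ d) (f : κ[X]) (c : κ) :
    τ (yc M hcard hd hq φ hφ l f c) = yc M hcard hd hq φ hφ l f (b ^ l * c) := by
  rw [yc, map_sum, ← yc_shift M hcard hd hq φ hφ l f (b ^ l * c) t]
  refine sum_congr rfl fun s _ => ?_
  rw [map_mul, tau_om M hcard hd hq φ hφ τ hτT t hτio b hτL l hl, tau_sh_io M hcard hd hq φ hφ τ t hτio,
    map_mul]
  ring

variable (p : ℕ) [hp : Fact p.Prime] [CharP E p] (D : Derivation ℤ E E) (hDT : D T = 1)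
  (hdec : ∀ x : E, Dec p T x) {r : ℕ} (hqp : q = p ^ r)

include hτT hDT in
lemma tau_cart (x : E) : τ (cart p hdec x) = cart p hdec (τ x) := by
  obtain ⟨y, hy⟩ := hdec x
  rw [hy, cart_eq p D hDT, map_sum]
  have h1 : ∀ i, τ (T ^ i * y i ^ p) = T ^ i * (τ (y i)) ^ p := fun i => by
    rw [map_mul, map_pow, map_pow, hτT]
  simp_rw [h1]
  exact (cart_eq p D hDT hdec (fun i => τ (y i))).symm

include hτT in
lemma tau_cartN (n : ℕ) (x : E) : τ (cartN p D hDT hdec n x) = cartN p D hDT hdec n (τ x) := by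
  induction n with
  | zero => rfl
  | succ n ih => rw [cartN_succ, cartN_succ, tau_cart τ hτT p D hDT hdec, ih]

include hτio hτL hτT in
lemma tau_hc (l : ℕ) (hl : l < q ^ d) (f : κ[X]) (c : κ) :
    τ (hc M hcard hd hq φ hφ p D hDT hdec l f r c) = hc M hcard hd hq φ hφ p D hDT hdec l f r (b ^ l * c) := by
  rw [hc, hc, map_sum]
  refine sum_congr rfl fun n _ => ?_
  rw [tau_cartN τ hτT p D hDT hdec, tau_yc M hcard hd hq φ hφ τ hτT t hτio b hτL l hl]

end Pool.Agent.D0H54.GE
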