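import Pool.Agent.D0H54.GE.Gal
import Pool.Agent.D0H54.GC.Integers
import Pool.Agent.D0H54.GC.Jacobson

set_option linter.unusedSectionVars false

namespace Pool.Agent.D0H54.GE

open Polynomial Finset Gk GC

section comm

variable {F1 F2 : Type*} [Field F1] [Field F2] (p : ℕ) [hp : Fact p.Prime] [CharP F1 p] [CharP F2 p]
  (D1 : Derivation ℤ F1 F1) (D2 : Derivation ℤ F2 F2) {T1 : F1} {T2 : F2} (h1 : D1 T1 = 1) (h2 : D2 T2 = 1)
  (ψ : F1 →+* F2) (hψ : ψ T1 = T2)

lemma D_monom {F : Type*} [Field F] (p : ℕ) [hp : Fact p.Prime] [CharP F p] (D : Derivation ℤ F F) {T : F}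
    (hT : D T = 1) (i : ℕ) (y : F) : D (T ^ i * y ^ p) = (i : F) * T ^ (i - 1) * y ^ p := by
  rw [Derivation.leibniz, D_powp, D_Tpow D hT]
  simp [smul_eq_mul, mul_comm]

include h1 h2 hψ in
lemma comm_D (x : F1) (hx : Dec p T1 x) : ψ (D1 x) = D2 (ψ x) := by
  obtain ⟨y, rfl⟩ := hx
  rw [map_sum, map_sum, map_sum, map_sum]
  refine sum_congr rfl fun i _ => ?_
  rw [D_monom p D1 h1, map_mul, map_mul, map_mul, map_pow, map_pow, map_pow, hψ, map_natCast,
    D_monom p D2 h2]

include h1 h2 hψ in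
lemma comm_cart (hd1 : ∀ x, Dec p T1 x) (hd2 : ∀ x, Dec p T2 x) (x : F1) :
    ψ (cart p hd1 x) = cart p hd2 (ψ x) := by
  obtain ⟨y, hy⟩ := hd1 x
  rw [hy, cart_eq p D1 h1, map_sum]
  have e : ∀ i, ψ (T1 ^ i * y i ^ p) = T2 ^ i * (ψ (y i)) ^ p := fun i => by
    rw [map_mul, map_pow, map_pow, hψ]
  simp_rw [e]
  exact (cart_eq p D2 h2 hd2 (fun i => ψ (y i))).symm

include hψ in
lemma comm_cartN (hd1 : ∀ x, Dec p T1 x) (hd2 : ∀ x, Dec p T2 x) (n : ℕ) (x : F1) :
    ψ (cartN p D1 h1 hd1 n x) = cartN p D2 h2 hd2 n (ψ x) := by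
  induction n with
  | zero => rfl
  | succ n ih => rw [cartN_succ, cartN_succ, comm_cart p D1 D2 h1 h2 ψ hψ hd1 hd2, ih]

end comm

section logd

variable {F : Type*} [Field F] (p : ℕ) [hp : Fact p.Prime] [CharP F p]
  (D : Derivation ℤ F F) {T : F} (hT : D T = 1) (hdec : ∀ x, Dec p T x)

include hT in
lemma Dp1_eq (x : F) : (D^[p - 1]) x = - (cart p hdec x) ^ p := by
  obtain ⟨y, hy⟩ := hdec x
  rw [hy, cart_eq p D hT hdec]
  exact cartier p D hT y

include hT hdec in
lemma Dp_zero (x : F) : (D^[p]) x = 0 := by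
  have h1 : (D^[p]) x = D ((D^[p - 1]) x) := by
    rw [← Function.iterate_succ_apply' D (p - 1) x, Nat.succ_eq_add_one, Nat.sub_add_cancel hp.out.pos]
  rw [h1, Dp1_eq p D hT hdec, map_neg, D_powp, neg_zero]

include hT in
theorem exists_dlog (h : F) (hh : cart p hdec h = h) : ∃ g : F, g ≠ 0 ∧ D g = h * g := by
  refine exists_log_derivative p D (Dp_zero p D hT hdec) h ?_
  rw [Dp1_eq p D hT hdec, hh, neg_add_cancel]

end logd

/-- integral over `k[X]` -/
abbrev IsI (k : Type*) [Field k] {F : Type*} [Field F] [Algebra (RatFunc k) F] (x : F) : Prop :=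
  (al k F).IsIntegralElem x

section integ

variable {k : Type*} [Field k] [Fintype k] {F : Type*} [Field F] [Algebra (RatFunc k) F]
  (w : k[X]) (hw : w.Monic) (hirr : Irreducible w) (lam : F) (hlam : lam ≠ 0)
  (htor : cAct k w lam = 0) (hgen : IntermediateField.adjoin (RatFunc k) {lam} = ⊤)
  (D : Derivation ℤ F F) (hD : ∀ f : k[X], D (al k F f) = al k F (derivative f))

lemma int_natMul (n : ℕ) {x : F} (hx : IsI k x) : IsI k ((n : F) * x) := by
  have h1 : ((n : ℕ) : F) = al k F (n : k[X]) := by rw [map_natCast]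
  rw [h1]; exact int_mul (int_al _) hx

lemma int_of_pow {x : F} {n : ℕ} (hn : n ≠ 0) (hx : IsI k (x ^ n)) : IsI k x := by
  obtain ⟨f, hf, hf2⟩ := hx
  refine ⟨f.comp (X ^ n), ?_, ?_⟩
  · exact hf.comp (monic_X_pow n) (by rw [natDegree_X_pow]; exact hn)
  · rw [eval₂_comp, eval₂_pow, eval₂_X]; exact hf2

variable {κ : Type*} [Field κ] [Fintype κ] [Algebra k κ] (θ : κ)
  (hwdvd : ∀ a : k[X], w ∣ a ↔ aeval θ a = 0) (rep : κ → k[X]) (hrep : ∀ a, aeval θ (rep a) = a)

include hwdvd htor hrep hD hw hlam in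
lemma int_D_lam : IsI k (al k F w * D lam) := by
  obtain ⟨n, c, hc⟩ := exists_rel θ w hwdvd lam htor rep hrep D hD
  have h1 := hc 1
  have h2 : LL (k := k) lam rep 1 = lam := by
    have := LL_aeval θ w hwdvd lam htor rep hrep (1 : k[X])
    rw [map_one, cAct_one] at this
    exact this
  rw [h2] at h1
  rw [al_apply, h1]
  refine int_sum _ _ fun i _ => ?_
  rw [← al_apply]
  exact int_mul (int_al _) (int_pow (int_lam w hw lam hlam htor) _)

include hwdvd htor hrep hD hw hlam hirr hgen in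
lemma int_D (z : F) (hz : IsI k z) : IsI k (al k F w * D z) := by
  obtain ⟨f, rfl⟩ := R1b w hw hirr lam hlam htor hgen z hz
  have hl := int_lam w hw lam hlam htor
  have hDl := int_D_lam w hw lam hlam htor D hD θ hwdvd rep hrep
  induction f using Polynomial.induction_on' with
  | add a b ha hb =>
    rw [eval₂_add, map_add, mul_add]
    exact int_add (ha (int_eval a hl)) (hb (int_eval b hl))
  | monomial n a =>
    rw [eval₂_monomial, Derivation.leibniz, hD, Derivation.leibniz_pow, smul_eq_mul, smul_eq_mul,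
      smul_eq_mul, nsmul_eq_mul]
    have e : al k F w * (al k F a * ((n : F) * (lam ^ (n - 1) * D lam)) + lam ^ n * al k F (derivative a)) =
        (n : F) * (al k F a * (lam ^ (n - 1) * (al k F w * D lam))) +
          al k F w * (lam ^ n * al k F (derivative a)) := by ring
    rw [e]
    exact int_add (int_natMul n (int_mul (int_al _) (int_mul (int_pow hl _) hDl)))
      (int_mul (int_al _) (int_mul (int_pow hl _) (int_al _)))

include hwdvd htor hrep hD hw hlam hirr hgen in
lemma int_Dn (y : F) (hy : IsI k (al k F w * y)) (n : ℕ) : IsI k (al k F w ^ (n + 1) * (D^[n]) y) := by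
  induction n with
  | zero => simpa using hy
  | succ n ih =>
    rw [Function.iterate_succ_apply']
    have h1 := int_D w hw hirr lam hlam htor hgen D hD θ hwdvd rep hrep _ ih
    set z := (D^[n]) y with hz
    have h2 : al k F w ^ (n + 1 + 1) * D z = al k F w * D (al k F w ^ (n + 1) * z) +
        - (((n + 1 : ℕ) : F) * (al k F (derivative w) * (al k F w ^ (n + 1) * z))) := by
      rw [Derivation.leibniz, Derivation.leibniz_pow, hD, smul_eq_mul, smul_eq_mul, smul_eq_mul,
        nsmul_eq_mul, Nat.add_sub_cancel]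
      ring
    rw [h2]
    exact int_add h1 (int_neg (int_natMul _ (int_mul (int_al _) ih)))

variable (p : ℕ) [hp : Fact p.Prime] [CharP F p] (hT : D (al k F X) = 1)
  (hdec : ∀ x, Dec p (al k F X) x)

include hwdvd htor hrep hD hw hlam hirr hgen hT in
lemma int_cart (y : F) (hy : IsI k (al k F w * y)) : IsI k (al k F w * cart p hdec y) := by
  have hp0 : p ≠ 0 := hp.out.ne_zero
  have h1 := int_Dn w hw hirr lam hlam htor hgen D hD θ hwdvd rep hrep y hy (p - 1)
  rw [Nat.sub_add_cancel hp.out.pos, Dp1_eq p D hT hdec] at h1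
  refine int_of_pow hp0 ?_
  rw [mul_pow]
  have := int_neg h1
  rwa [mul_neg, neg_neg] at this

include hwdvd htor hrep hD hw hlam hirr hgen in
lemma int_cartN (n : ℕ) (y : F) (hy : IsI k (al k F w * y)) :
    IsI k (al k F w * cartN p D hT hdec n y) := by
  induction n with
  | zero => exact hy
  | succ n ih =>
    rw [cartN_succ]
    exact int_cart w hw hirr lam hlam htor hgen D hD θ hwdvd rep hrep p hT hdec _ ih

end integ

end Pool.Agent.D0H54.GE
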