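import Pool.Agent.D0H54.GE.Int

set_option linter.unusedSectionVars false

namespace Pool.Agent.D0H54.GE

open Polynomial Finset Gk GC

section inte

variable {k : Type*} [Field k] [Fintype k] {E : Type*} [Field E] [Algebra (RatFunc k) E]
  (w : k[X]) (hw : w.Monic) (lam : E) (hlam : lam ≠ 0)
  (htor : cAct k w lam = 0)
  {κ : Type*} [Field κ] [Fintype κ] [Algebra k κ] (θ : κ)
  (hsurj : Function.Surjective (aeval θ : k[X] → κ))
  (hwdvd : ∀ a : k[X], w ∣ a ↔ aeval θ a = 0) (rep : κ → k[X]) (hrep : ∀ a, aeval θ (rep a) = a)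
  (M : Datum (Fintype.card k) w.natDegree (al k E X) θ (LL (k := k) lam rep))
  (hio : ∀ c : k, M.io (algebraMap k κ c) = al k E (C c))
  (hcard : Fintype.card κ = Fintype.card k ^ w.natDegree) (hd : 1 ≤ w.natDegree)
  (hq : 2 ≤ Fintype.card k) (φ : κ →+* κ) (hφ : ∀ x, φ x = x ^ Fintype.card k)

include hcard in
lemma int_io (a : κ) : IsI k (M.io a) := by
  have hq2 : 1 < Fintype.card k ^ w.natDegree := by rw [← hcard]; exact Fintype.one_lt_card
  refine ⟨X ^ (Fintype.card k ^ w.natDegree) - X, monic_X_pow_sub ?_, ?_⟩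
  · rw [degree_X]; exact_mod_cast hq2
  · rw [eval₂_sub, eval₂_pow, eval₂_X, ← map_pow, M.th_pow hcard, sub_self]

include hw hlam htor in
lemma int_L (a : κ) : IsI k (LL (k := k) lam rep a) := by
  have hl := int_lam w hw lam hlam htor
  have h1 : LL (k := k) lam rep a = (Qp k (rep a)).eval₂ (al k E) lam * lam := by
    rw [LL, ← Qp_eval, mul_comm]
  rw [h1]
  exact int_mul (int_eval _ hl) hl

include hw hlam htor hcard hq in
lemma int_g (j : ℕ) : IsI k (M.g j) := by
  classical
  induction j using Nat.strong_induction_on with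
  | _ j ih =>
    by_cases hj : j < w.natDegree
    · rw [coord M hcard hq M.g (LL (k := k) lam rep) M.hL j hj]
      exact int_neg (int_sum _ _ fun a _ => int_mul (int_pow (int_io w lam θ rep M hcard _) _)
        (int_L w hw lam hlam htor rep _))
    · have hd : 1 ≤ w.natDegree := by
        by_contra h
        have h1 : w.natDegree = 0 := by omega
        rw [h1, pow_zero] at hcard
        have : 1 < Fintype.card κ := Fintype.one_lt_card
        omega
      obtain ⟨i, rfl⟩ : ∃ i, j = i + w.natDegree := ⟨j - w.natDegree, by omega⟩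
      rw [M.hper]
      exact ih i (by omega)

include hw hlam htor in
lemma int_La (l s : ℕ) : IsI k ((sh M hcard hd hq φ hφ s).La l) := by
  rw [Datum.La]
  refine int_prod _ _ fun j _ => int_pow ?_ _
  rw [sh_g]
  exact int_g w hw lam hlam htor θ rep M hcard hq _

lemma int_evf (s : ℕ) (f : κ[X]) : IsI k (f.eval₂ (sh M hcard hd hq φ hφ s).io (al k E X)) := by
  rw [eval₂_eq_sum_range]
  refine int_sum _ _ fun i _ => int_mul ?_ (int_pow (int_al _) _)
  rw [sh_io]
  exact int_pow (int_io w lam θ rep M hcard _) _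

include hw hsurj hwdvd hio in
lemma al_w_eq : al k E w = (-1) ^ w.natDegree * (P1 (Fintype.card k) w.natDegree θ).eval₂ M.io (al k E X) := by
  rw [← compat_eval M.io hio w, w_map θ w hw hsurj hwdvd, P1, eval₂_finsetProd, eval₂_finsetProd]
  have h1 : (-1 : E) ^ w.natDegree = ∏ _j ∈ range w.natDegree, (-1 : E) := by
    rw [prod_const, card_range]
  rw [h1, ← prod_mul_distrib]
  refine prod_congr rfl fun j _ => ?_
  rw [Gk.tp, eval₂_sub, eval₂_sub, eval₂_X, eval₂_C]; ring

include hw hsurj hwdvd hio hlam htor in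
lemma int_w_om (l s : ℕ) (f : κ[X]) : IsI k (al k E w * om M hcard hd hq φ hφ l s f) := by
  have hP := M.P1_ne
  have h1 : al k E w * om M hcard hd hq φ hφ l s f = (-1) ^ w.natDegree *
      (f.eval₂ (sh M hcard hd hq φ hφ s).io (al k E X) * (sh M hcard hd hq φ hφ s).La l) := by
    rw [om, al_w_eq w hw lam θ hsurj hwdvd rep M hio]
    field_simp
  rw [h1]
  exact int_mul (int_pow (int_neg int_one) _) (int_mul (int_evf w lam θ rep M hcard hd hq φ hφ s f)
    (int_La w hw lam hlam htor θ rep M hcard hd hq φ hφ l s))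

include hw hsurj hwdvd hio hlam htor in
lemma int_w_yc (l : ℕ) (f : κ[X]) (c : κ) : IsI k (al k E w * yc M hcard hd hq φ hφ l f c) := by
  rw [yc, mul_sum]
  refine int_sum _ _ fun s _ => ?_
  have h1 : al k E w * ((sh M hcard hd hq φ hφ s).io c * om M hcard hd hq φ hφ l s f) =
      (sh M hcard hd hq φ hφ s).io c * (al k E w * om M hcard hd hq φ hφ l s f) := by ring
  rw [h1]
  refine int_mul ?_ (int_w_om w hw lam hlam htor θ hsurj hwdvd rep M hio hcard hd hq φ hφ l s f)
  rw [sh_io]
  exact int_pow (int_io w lam θ rep M hcard _) _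

end inte

section tau

variable {k : Type*} [Field k] [Fintype k] {E : Type*} [Field E] [Algebra (RatFunc k) E]
  (w : k[X]) (hw : w.Monic) (lam : E)
  {κ : Type*} [Field κ] [Fintype κ] [Algebra k κ] (θ : κ)
  (hsurj : Function.Surjective (aeval θ : k[X] → κ))
  (hwdvd : ∀ a : k[X], w ∣ a ↔ aeval θ a = 0)
  (io : κ →+* E) (hio : ∀ c : k, io (algebraMap k κ c) = al k E (C c))
  (τ : E →+* E) (hτ : ∀ a : k[X], τ (al k E a) = al k E a)

include hτ hio in
lemma tau_io_aeval (f : k[X]) : τ (io (aeval θ f)) = f.eval₂ ((al k E).comp C) (τ (io θ)) := by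
  rw [aeval_def, hom_eval₂, hom_eval₂]
  congr 1
  ext c
  rw [RingHom.comp_apply, RingHom.comp_apply, hio, hτ, RingHom.comp_apply]

include hw hsurj hwdvd hio hτ in
lemma exists_tau_io : ∃ t : ℕ, ∀ a, τ (io a) = io a ^ (Fintype.card k ^ t) := by
  have h1 : w.eval₂ ((al k E).comp C) (τ (io θ)) = 0 := by
    rw [← tau_io_aeval θ io hio τ hτ, (hwdvd w).1 dvd_rfl, map_zero, map_zero]
  have h2 : (w.map (algebraMap k κ)).eval₂ io (τ (io θ)) = 0 := by
    rw [eval₂_map, ← h1]
    congr 1
    ext c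
    rw [RingHom.comp_apply, hio, RingHom.comp_apply]
  rw [w_map θ w hw hsurj hwdvd, eval₂_finsetProd, prod_eq_zero_iff] at h2
  obtain ⟨t, _, ht⟩ := h2
  rw [eval₂_sub, eval₂_X, eval₂_C, sub_eq_zero] at ht
  refine ⟨t, fun a => ?_⟩
  obtain ⟨f, rfl⟩ := hsurj a
  rw [tau_io_aeval θ io hio τ hτ, ht, ← map_pow, aeval_pow_card, aeval_def, hom_eval₂]
  congr 1
  ext c
  rw [RingHom.comp_apply, RingHom.comp_apply, hio]

end tau

end Pool.Agent.D0H54.GE
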