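import Pool.Agent.D0H54.GE.CartCq
import Pool.Agent.D0H54.Gk.Fin2

set_option linter.unusedSectionVars false

namespace Pool.Agent.D0H54.GE

open Polynomial Finset Gk

lemma cartN_mulq {E : Type*} [Field E] (p : ℕ) [hp : Fact p.Prime] [CharP E p]
    (D : Derivation ℤ E E) {T : E} (hDT : D T = 1) (hdec : ∀ x : E, Dec p T x) {q r : ℕ}
    (hqp : q = p ^ r) (y x : E) :
    cartN p D hDT hdec r (y ^ q * x) = y * cartN p D hDT hdec r x := by
  subst hqp
  exact cartN_mul p D hDT hdec r y x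

section sums

lemma sum_shift' {M : Type*} [AddCommMonoid M] {d : ℕ} (hd : 1 ≤ d) (f : ℕ → M)
    (h : ∀ s, f (s + d) = f s) (t : ℕ) : ∑ s ∈ range d, f (s + t) = ∑ s ∈ range d, f s := by
  induction t with
  | zero => rfl
  | succ t ih =>
    rw [← ih, ← sum_shift hd (fun s => f (s + t))]
    · exact sum_congr rfl fun s _ => by congr 1; ring
    · have := h t
      rw [add_comm t d] at this
      rw [this, zero_add]

end sums

variable {κ E : Type*} [Field κ] [Fintype κ] [Field E] {q d : ℕ} {T : E} {th : κ} {L : κ → E}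
  (M : Datum q d T th L)
variable (hcard : Fintype.card κ = q ^ d) (hd : 1 ≤ d) (hq : 2 ≤ q) (φ : κ →+* κ) (hφ : ∀ x, φ x = x ^ q)

/-- iterated shift -/
noncomputable def sh : ℕ → Datum q d T th L
  | 0 => M
  | s + 1 => (sh s).shift hcard hd hq φ hφ

lemma sh_succ (s : ℕ) : sh M hcard hd hq φ hφ (s + 1) = (sh M hcard hd hq φ hφ s).shift hcard hd hq φ hφ := rfl

lemma sh_io_succ (s : ℕ) : (sh M hcard hd hq φ hφ (s + 1)).io = (sh M hcard hd hq φ hφ s).io.comp φ := rfl

lemma sh_io_succ' (s : ℕ) (a : κ) : (sh M hcard hd hq φ hφ (s + 1)).io a = (sh M hcard hd hq φ hφ s).io a ^ q := by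
  rw [sh_io_succ, RingHom.comp_apply, hφ, map_pow]

lemma sh_io (s : ℕ) (a : κ) : (sh M hcard hd hq φ hφ s).io a = M.io a ^ (q ^ s) := by
  induction s with
  | zero => rw [pow_zero, pow_one]; rfl
  | succ s ih => rw [sh_io_succ', ih, ← pow_mul, pow_succ]

lemma sh_g (s j : ℕ) : (sh M hcard hd hq φ hφ s).g j = M.g (j + s) := by
  induction s generalizing j with
  | zero => rfl
  | succ s ih =>
    have : (sh M hcard hd hq φ hφ (s + 1)).g j = (sh M hcard hd hq φ hφ s).g (j + 1) := rfl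
    rw [this, ih]
    congr 1; ring

lemma sh_io_per (s : ℕ) : (sh M hcard hd hq φ hφ (s + d)).io = (sh M hcard hd hq φ hφ s).io := by
  ext a
  rw [sh_io, sh_io, pow_add, mul_comm, pow_mul, ← map_pow, M.th_pow hcard]

lemma sh_g_per (s j : ℕ) : (sh M hcard hd hq φ hφ (s + d)).g j = (sh M hcard hd hq φ hφ s).g j := by
  rw [sh_g, sh_g, ← add_assoc, M.hper]

lemma sh_La_per (l s : ℕ) : (sh M hcard hd hq φ hφ (s + d)).La l = (sh M hcard hd hq φ hφ s).La l := by
  rw [Datum.La, Datum.La]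
  exact prod_congr rfl fun j _ => by rw [sh_g_per]

lemma sh_P1 (s : ℕ) : (P1 q d th).eval₂ (sh M hcard hd hq φ hφ s).io T = (P1 q d th).eval₂ M.io T := by
  induction s with
  | zero => rfl
  | succ s ih => rw [← ih]; exact (sh M hcard hd hq φ hφ s).shift_P1 hcard hd hq φ hφ

lemma La_shift (l : ℕ) : (M.shift hcard hd hq φ hφ).La l *
    ∏ j ∈ range d, (tp q th j).eval₂ (M.shift hcard hd hq φ hφ).io T ^ dg q d l j = M.La l ^ q := by
  rw [Datum.La_eq_dg _ hcard hd hq φ hφ, Datum.La_eq_dg _ hcard hd hq φ hφ, ← prod_mul_distrib, ← prod_pow]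
  refine prod_congr rfl fun j _ => ?_
  have h1 : (tp q th j).eval₂ (M.shift hcard hd hq φ hφ).io T = (tp q th (j + 1)).eval₂ M.io T := by
    rw [Datum.eval_tp, Datum.eval_tp]
    change M.io (φ th) ^ _ - _ = _
    rw [hφ, map_pow, ← pow_mul, ← pow_succ']
  have h2 : (M.shift hcard hd hq φ hφ).g j = M.g (j + 1) := rfl
  rw [h1, h2, ← mul_pow, mul_comm (M.g (j + 1)), M.hrec', ← pow_mul, ← pow_mul, mul_comm]

/-- the differential -/
noncomputable def om (l s : ℕ) (f : κ[X]) : E :=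
  f.eval₂ (sh M hcard hd hq φ hφ s).io T * (sh M hcard hd hq φ hφ s).La l / (P1 q d th).eval₂ M.io T

lemma om_per (l s : ℕ) (f : κ[X]) :
    om M hcard hd hq φ hφ l (s + d) f = om M hcard hd hq φ hφ l s f := by
  rw [om, om, sh_io_per, sh_La_per]

lemma om_add (l s : ℕ) (f g : κ[X]) : om M hcard hd hq φ hφ l s (f + g) =
    om M hcard hd hq φ hφ l s f + om M hcard hd hq φ hφ l s g := by
  rw [om, om, om, eval₂_add]; ring

variable (p : ℕ) [hp : Fact p.Prime] [CharP E p] (D : Derivation ℤ E E) (hDT : D T = 1)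
  (hdec : ∀ x : E, Dec p T x) {r : ℕ} (hqp : q = p ^ r)

include hqp in
lemma cartN_om (l s : ℕ) (f : κ[X]) (hf : GB.cq q (Datum.Pk q d th l * f) = f) :
    cartN p D hDT hdec r (om M hcard hd hq φ hφ l (s + 1) f) = om M hcard hd hq φ hφ l s f := by
  set M0 := sh M hcard hd hq φ hφ s with hM0
  have hM1 : sh M hcard hd hq φ hφ (s + 1) = M0.shift hcard hd hq φ hφ := rfl
  set M1 := M0.shift hcard hd hq φ hφ with hM1'
  have hP : (P1 q d th).eval₂ M1.io T = (P1 q d th).eval₂ M.io T := by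
    rw [← hM1]; exact sh_P1 M hcard hd hq φ hφ (s + 1)
  have hP0 : (P1 q d th).eval₂ M.io T ≠ 0 := M.P1_ne
  set P := (P1 q d th).eval₂ M.io T with hPd
  have hLa := La_shift M0 hcard hd hq φ hφ l
  rw [← hM1'] at hLa
  have hsplit : P ^ q = P * ((∏ j ∈ range d, (tp q th j).eval₂ M1.io T ^ dg q d l j) *
      (Datum.Pk q d th l).eval₂ M1.io T) := by
    have h1 : P = ∏ j ∈ range d, (tp q th j).eval₂ M1.io T := by
      rw [← hP, P1, eval₂_finsetProd]
    rw [Datum.Pk, eval₂_finsetProd, ← prod_mul_distrib]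
    have h2 : ∀ j ∈ range d, (tp q th j).eval₂ M1.io T ^ dg q d l j *
        (tp q th j ^ (q - 1 - dg q d l j)).eval₂ M1.io T = (tp q th j).eval₂ M1.io T ^ (q - 1) := by
      intro j _
      rw [eval₂_pow, ← pow_add]
      congr 1
      have := dg_lt (d := d) hq l j
      omega
    rw [prod_congr rfl h2, prod_pow, ← h1, ← pow_succ']
    congr 1; omega
  have key : om M hcard hd hq φ hφ l (s + 1) f =
      (M0.La l / P) ^ q * (Datum.Pk q d th l * f).eval₂ (M0.io.comp φ) T := by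
    have hio : M0.io.comp φ = M1.io := rfl
    rw [hio, div_pow, hsplit, ← hLa, eval₂_mul, om]
    change f.eval₂ M1.io T * M1.La l / P = _
    have h3 : (Datum.Pk q d th l).eval₂ M1.io T ≠ 0 := by
      intro h
      rw [h, mul_zero, mul_zero] at hsplit
      exact pow_ne_zero q hP0 hsplit
    have h4 : (∏ j ∈ range d, (tp q th j).eval₂ M1.io T ^ dg q d l j) ≠ 0 :=
      prod_ne_zero_iff.2 fun j _ => pow_ne_zero _ (M1.tp_ne j)
    field_simp
  rw [key, cartN_mulq p D hDT hdec hqp, cartN_cq p D hDT hdec M0.io φ r q hqp hφ, hf, om]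
  ring

/-- the element attached to `c` -/
noncomputable def yc (l : ℕ) (f : κ[X]) (c : κ) : E :=
  ∑ s ∈ range d, (sh M hcard hd hq φ hφ s).io c * om M hcard hd hq φ hφ l s f

lemma yc_add (l : ℕ) (f : κ[X]) (c c' : κ) : yc M hcard hd hq φ hφ l f (c + c') =
    yc M hcard hd hq φ hφ l f c + yc M hcard hd hq φ hφ l f c' := by
  rw [yc, yc, yc, ← sum_add_distrib]
  exact sum_congr rfl fun s _ => by rw [map_add, add_mul]

lemma yc_shift (l : ℕ) (f : κ[X]) (c : κ) (t : ℕ) :
    ∑ s ∈ range d, (sh M hcard hd hq φ hφ (s + t)).io c * om M hcard hd hq φ hφ l (s + t) f = yc M hcard hd hq φ hφ l f c := by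
  rw [yc]
  exact sum_shift' hd (fun s => (sh M hcard hd hq φ hφ s).io c * om M hcard hd hq φ hφ l s f)
    (fun s => by rw [sh_io_per, om_per]) t

include hqp in
lemma cartN_yc (l : ℕ) (f : κ[X]) (hf : GB.cq q (Datum.Pk q d th l * f) = f) (c : κ) :
    cartN p D hDT hdec r (yc M hcard hd hq φ hφ l f c) = yc M hcard hd hq φ hφ l f c := by
  conv_lhs => rw [← yc_shift M hcard hd hq φ hφ l f c 1]
  rw [map_sum, yc]
  refine sum_congr rfl fun s _ => ?_
  rw [sh_io_succ', cartN_mulq p D hDT hdec hqp, cartN_om M hcard hd hq φ hφ p D hDT hdec hqp l s f hf]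

/-- the logarithmic differential attached to `c` -/
noncomputable def hc (l : ℕ) (f : κ[X]) (r : ℕ) (c : κ) : E :=
  ∑ j ∈ range r, cartN p D hDT hdec j (yc M hcard hd hq φ hφ l f c)

lemma hc_add (l : ℕ) (f : κ[X]) (r : ℕ) (c c' : κ) :
    hc M hcard hd hq φ hφ p D hDT hdec l f r (c + c') =
    hc M hcard hd hq φ hφ p D hDT hdec l f r c + hc M hcard hd hq φ hφ p D hDT hdec l f r c' := by
  rw [hc, hc, hc, ← sum_add_distrib]
  exact sum_congr rfl fun s _ => by rw [yc_add, map_add]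

include hqp in
lemma cart_hc (l : ℕ) (f : κ[X]) (hf : GB.cq q (Datum.Pk q d th l * f) = f) (c : κ) :
    cart p hdec (hc M hcard hd hq φ hφ p D hDT hdec l f r c) = hc M hcard hd hq φ hφ p D hDT hdec l f r c := by
  rw [hc, ← cartHom_apply p D hDT hdec, map_sum]
  have h1 : ∀ j, cartHom p D hDT hdec (cartN p D hDT hdec j (yc M hcard hd hq φ hφ l f c)) =
      cartN p D hDT hdec (j + 1) (yc M hcard hd hq φ hφ l f c) := fun j => rfl
  simp_rw [h1]
  have h2 := sum_range_succ (fun j => cartN p D hDT hdec j (yc M hcard hd hq φ hφ l f c)) r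
  have h3 := sum_range_succ' (fun j => cartN p D hDT hdec j (yc M hcard hd hq φ hφ l f c)) r
  rw [h2, cartN_yc M hcard hd hq φ hφ p D hDT hdec hqp l f hf, cartN_zero] at h3
  exact (add_right_cancel h3).symm

include hqp in
/-- extraction of the `c`-component -/
lemma sum_hc (l : ℕ) (f : κ[X]) [Fintype κˣ] [CharP κ p] (hr : 1 ≤ r) :
    ∑ c : κˣ, (M.io (c : κ))⁻¹ * hc M hcard hd hq φ hφ p D hDT hdec l f r (c : κ) =
      - om M hcard hd hq φ hφ l 0 f := by
  classical
  have hN : 1 < q ^ d := Nat.one_lt_pow (by omega) (by omega)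
  have h1 : ∀ c : κˣ, (M.io (c : κ))⁻¹ * hc M hcard hd hq φ hφ p D hDT hdec l f r (c : κ) =
      ∑ j ∈ range r, ∑ s ∈ range d, M.io (c : κ) ^ (p ^ (r * (s + 1) - j) - 1) *
        cartN p D hDT hdec j (om M hcard hd hq φ hφ l (s + 1) f) := by
    intro c
    have hc0 : M.io (c : κ) ≠ 0 := by
      intro h; rw [map_eq_zero] at h; exact c.ne_zero h
    rw [hc, mul_sum]
    refine sum_congr rfl fun j hj => ?_
    have hj' := mem_range.1 hj
    rw [← yc_shift M hcard hd hq φ hφ l f c 1, map_sum, mul_sum]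
    refine sum_congr rfl fun s _ => ?_
    have h2 : (sh M hcard hd hq φ hφ (s + 1)).io (c : κ) = (M.io (c : κ) ^ (p ^ (r * (s + 1) - j))) ^ (p ^ j) := by
      have e1 : q ^ (s + 1) = p ^ (r * (s + 1) - j + j) := by
        have : r * 1 ≤ r * (s + 1) := Nat.mul_le_mul_left r (by omega)
        rw [Nat.sub_add_cancel (by omega), pow_mul, ← hqp]
      rw [sh_io, ← pow_mul, ← pow_add, e1]
    rw [h2, cartN_mul, ← mul_assoc]
    congr 1
    have h3 : M.io (c : κ) ^ (p ^ (r * (s + 1) - j)) = M.io (c : κ) * M.io (c : κ) ^ (p ^ (r * (s + 1) - j) - 1) := by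
      rw [← pow_succ', Nat.sub_add_cancel (Nat.one_le_pow _ _ hp.out.pos)]
    rw [h3, ← mul_assoc, inv_mul_cancel₀ hc0, one_mul]
  simp_rw [h1]
  rw [sum_comm]
  have h2 : ∀ j ∈ range r, ∑ c : κˣ, ∑ s ∈ range d, M.io (c : κ) ^ (p ^ (r * (s + 1) - j) - 1) *
        cartN p D hDT hdec j (om M hcard hd hq φ hφ l (s + 1) f) =
      if j = 0 then - om M hcard hd hq φ hφ l 0 f else 0 := by
    intro j hj
    have hj' := mem_range.1 hj
    rw [sum_comm]
    have h3 : ∀ s ∈ range d, ∑ c : κˣ, M.io (c : κ) ^ (p ^ (r * (s + 1) - j) - 1) *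
        cartN p D hDT hdec j (om M hcard hd hq φ hφ l (s + 1) f) =
        if s = d - 1 ∧ j = 0 then - om M hcard hd hq φ hφ l 0 f else 0 := by
      intro s hs
      have hs' := mem_range.1 hs
      rw [← sum_mul]
      have h4 : ∑ c : κˣ, M.io (c : κ) ^ (p ^ (r * (s + 1) - j) - 1) =
          if (q ^ d - 1) ∣ (p ^ (r * (s + 1) - j) - 1) then -1 else 0 := by
        have h5 := M.sum_io_pow hcard (p ^ (r * (s + 1) - j) - 1)
        rw [← h5]
        exact Finset.sum_congr (by ext x; simp) (fun _ _ => rfl)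
      rw [h4]
      have h6 : (q ^ d - 1) ∣ (p ^ (r * (s + 1) - j) - 1) ↔ (s = d - 1 ∧ j = 0) := by
        have hle : r * (s + 1) ≤ r * d := Nat.mul_le_mul_left r (by omega)
        have hge : r * 1 ≤ r * (s + 1) := Nat.mul_le_mul_left r (by omega)
        have hqd : q ^ d = p ^ (r * d) := by rw [hqp, ← pow_mul]
        constructor
        · intro h
          have h7 : 1 < p ^ (r * (s + 1) - j) := Nat.one_lt_pow (by omega) hp.out.one_lt
          have h8 := Nat.le_of_dvd (by omega) h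
          have h9 : p ^ (r * d) ≤ p ^ (r * (s + 1) - j) := by rw [← hqd]; omega
          have h10 := (Nat.pow_le_pow_iff_right hp.out.one_lt).1 h9
          have hj0 : j = 0 := by omega
          have h11 : r * (s + 1) = r * d := by omega
          have h12 := Nat.eq_of_mul_eq_mul_left (by omega) h11
          exact ⟨by omega, hj0⟩
        · rintro ⟨rfl, rfl⟩
          rw [Nat.sub_zero, Nat.sub_add_cancel hd, hqd]
      by_cases hcond : s = d - 1 ∧ j = 0
      · rw [if_pos (h6.2 hcond), if_pos hcond]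
        obtain ⟨rfl, rfl⟩ := hcond
        rw [cartN_zero, Nat.sub_add_cancel hd]
        have := om_per M hcard hd hq φ hφ l 0 f
        rw [zero_add] at this
        rw [this]; ring
      · rw [if_neg (fun h => hcond (h6.1 h)), if_neg hcond, zero_mul]
    rw [sum_congr rfl h3]
    by_cases hj0 : j = 0
    · rw [if_pos hj0, sum_eq_single (d - 1)]
      · rw [if_pos ⟨rfl, hj0⟩]
      · intro b _ hb
        rw [if_neg fun h => hb h.1]
      · intro h; exact absurd (mem_range.2 (by omega)) h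
    · rw [if_neg hj0]
      exact sum_eq_zero fun s _ => by rw [if_neg fun h => hj0 h.2]
  rw [sum_congr rfl h2, sum_ite_eq' (range r) 0, if_pos (mem_range.2 (by omega))]

end Pool.Agent.D0H54.GE
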