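import Pool.Agent.D0H54.GE.Cls
import Pool.Agent.D0H54.GC.UnitBound
import Pool.Agent.D0H10.GK.Infty

set_option linter.unusedSectionVars false

namespace Pool.Agent.D0H54.GE

open Polynomial Finset Gk GC TensorProduct

section tensor

variable {κ E U : Type*} [Field κ] [Field E] [AddCommGroup U] (io : κ →+* E) (ψ : U →+ E)

/-- semilinear extension of an additive map -/
lemma exists_tensor_map : ∃ Φ : κ ⊗[ℤ] U →+ E, (∀ x u, Φ (x ⊗ₜ u) = io x * ψ u) ∧
    (∀ (c : κ) m, Φ (c • m) = io c * Φ m) := by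
  let g : κ →ₗ[ℤ] U →ₗ[ℤ] E :=
    LinearMap.mk₂ ℤ (fun x u => io x * ψ u)
      (fun a b c => by rw [map_add, add_mul])
      (fun m a c => by rw [map_zsmul, smul_mul_assoc])
      (fun a b c => by rw [map_add, mul_add])
      (fun m a c => by rw [map_zsmul, mul_smul_comm])
  let Φ : κ ⊗[ℤ] U →+ E := (TensorProduct.lift g).toAddMonoidHom
  have h1 : ∀ x u, Φ (x ⊗ₜ u) = io x * ψ u := fun x u => by
    change TensorProduct.lift g (x ⊗ₜ u) = _
    rw [TensorProduct.lift.tmul]
    rfl
  refine ⟨Φ, h1, fun c m => ?_⟩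
  induction m using TensorProduct.induction_on with
  | zero => rw [smul_zero, map_zero, mul_zero]
  | tmul x u => rw [TensorProduct.smul_tmul', h1, h1, smul_eq_mul, map_mul, mul_assoc]
  | add a b ha hb => rw [smul_add, map_add, ha, hb, map_add, mul_add]

end tensor

section main

variable {k : Type*} [Field k] [Fintype k] {F : Type*} [Field F] [Algebra (RatFunc k) F]
  (w : k[X]) (hw : w.Monic) (hirr : Irreducible w) (lam : F) (hlam : lam ≠ 0)
  (htor : cAct k w lam = 0) (hgen : IntermediateField.adjoin (RatFunc k) {lam} = ⊤)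

include hw hlam htor hgen in
lemma aut_ext (σ τ : F ≃ₐ[RatFunc k] F) (h : σ lam = τ lam) : σ = τ := by
  let _ : Algebra k[X] F := (al k F).toAlgebra
  have : IsScalarTower k[X] (RatFunc k) F := IsScalarTower.of_algebraMap_eq fun _ => rfl
  obtain ⟨B, hB⟩ := exists_pb w hw lam hlam htor hgen
  have h1 : (σ : F →ₐ[RatFunc k] F) = (τ : F →ₐ[RatFunc k] F) := B.algHom_ext (by
    rw [hB]; exact h)
  ext x
  exact congrArg (fun f : F →ₐ[RatFunc k] F => f x) h1

lemma aut_cAct (σ : F ≃ₐ[RatFunc k] F) (a : k[X]) (x : F) : σ (cAct k a x) = cAct k a (σ x) :=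
  (cAct_map (σ : F →ₐ[RatFunc k] F) a x).symm

variable {κ : Type*} [Field κ] [Fintype κ] [Fintype κˣ] [Algebra k κ] (θ : κ)
  (hwdvd : ∀ a : k[X], w ∣ a ↔ aeval θ a = 0) (rep : κ → k[X]) (hrep : ∀ a, aeval θ (rep a) = a)
  (p : ℕ) [hp : Fact p.Prime] [CharP k p] [CharP κ p] [CharP F p]
  {O : Type*} [CommRing O] [IsDomain O] [Algebra O F] [IsFractionRing O F]
  (hint : ∀ x : F, IsI k x ↔ ∃ y : O, algebraMap O F y = x)
  (sO : (F ≃ₐ[RatFunc k] F) → (O ≃+* O))
  (hsO : ∀ σ x, algebraMap O F (sO σ x) = σ (algebraMap O F x))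
  (D : Derivation ℤ F F)
  (hT : D (al k F X) = 1) (hdec : ∀ x, Dec p (al k F X) x) (l : ℕ)

include hw hirr hlam htor hgen hwdvd hrep hint hsO hT hdec in
/-- the unit bound: units with prescribed logarithmic derivatives -/
theorem unit_main {E : Type*} [Field E] (io : κ →+* E) (j : F →+* E) :
    ∃ μ : E, ∀ (h : κ → F)
      (_ : ∀ (σ : F ≃ₐ[RatFunc k] F) (g : k[X]), σ lam = cAct k g lam →
        ∀ c, σ (h c) = h ((aeval θ g) ^ l * c))
      (e : κ → Oˣ) (_ : ∀ c, D (algebraMap O F (e c : O)) = h c * algebraMap O F (e c : O)),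
      ∃ c0 : κ, ∑ c : κˣ, (io (c : κ))⁻¹ * j (h (c : κ)) = io c0 * μ := by
  classical
  have hinj := IsFractionRing.injective O F
  have hfin := R1_finite w hw lam hlam htor hgen
  have hgal := R1_galois w hw hirr lam hlam htor hgen
  have hunit : ∀ a : κˣ, ¬ w ∣ rep (a : κ) := fun a => by
    rw [hwdvd, hrep]; exact a.ne_zero
  have hex : ∀ a : κˣ, ∃ σ : F ≃ₐ[RatFunc k] F, σ lam = cAct k (rep (a : κ)) lam := fun a =>
    R1a w hw hirr lam hlam htor hgen (rep (a : κ)) (hunit a)
  choose σ hσ using hex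
  have hσmul : ∀ a b, σ (a * b) = σ a * σ b := by
    intro a b
    refine aut_ext w hw lam hlam htor hgen _ _ ?_
    rw [hσ, AlgEquiv.mul_apply, hσ, aut_cAct, hσ, ← cAct_mul]
    refine tors_eq θ w hwdvd lam htor ?_
    rw [hrep, map_mul, hrep, hrep, Units.val_mul, mul_comm]
  let U := Additive Oˣ
  let s : κˣ → U →+ U := fun a => MonoidHom.toAdditive (Units.map ((sO (σ a) : O ≃+* O) : O →* O))
  have hs_apply : ∀ (a : κˣ) (u : U), algebraMap O F (((s a u).toMul : Oˣ) : O) =
      σ a (algebraMap O F ((u.toMul : Oˣ) : O)) := by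
    intro a u
    rw [← hsO]
    rfl
  have hext : ∀ u v : U, algebraMap O F ((u.toMul : Oˣ) : O) = algebraMap O F ((v.toMul : Oˣ) : O) → u = v := by
    intro u v h
    have h1 : u.toMul = v.toMul := Units.ext (hinj h)
    exact Additive.toMul.injective h1
  have hs : ∀ a b u, s (a * b) u = s a (s b u) := by
    intro a b u
    apply hext
    rw [hs_apply, hs_apply, hs_apply, hσmul]
    rfl
  obtain ⟨v0, hv0⟩ := D0H10.GK.exists_val_infty p (k := k) (F := F)
  let ι : Oˣ →* Fˣ := Units.map (algebraMap O F : O →* F)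
  let v : U →+ ℤ :=
    { toFun := fun u => Multiplicative.toAdd (v0 (ι u.toMul))
      map_zero' := by
        change Multiplicative.toAdd (v0 (ι 1)) = 0
        rw [map_one, map_one]; rfl
      map_add' := fun u u' => by
        change Multiplicative.toAdd (v0 (ι (u.toMul * u'.toMul))) = _
        rw [map_mul, map_mul]; rfl }
  have hv : ∀ u, (∀ a, v (s a u) = 0) → ∃ m : ℕ, ¬ p ∣ m ∧ m • u = 0 := by
    intro u hu
    obtain ⟨m, hm1, hm2⟩ := hv0 (ι u.toMul) ((hint _).2 ⟨((u.toMul : Oˣ) : O), rfl⟩) (by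
      intro τ
      obtain ⟨a', _, ha', hτ⟩ := R1a' w hw hirr lam hlam htor τ
      have ha0 : aeval θ a' ≠ 0 := by rw [ne_eq, ← hwdvd]; exact ha'
      set a : κˣ := Units.mk0 (aeval θ a') ha0 with hadef
      have h1 : τ = σ a := by
        refine aut_ext w hw lam hlam htor hgen _ _ ?_
        rw [hτ, hσ]
        refine tors_eq θ w hwdvd lam htor ?_
        rw [hrep]
        rfl
      have h2 := hu a
      have h3 : v0 (ι ((s a u).toMul)) = 1 := h2
      have h4 : Units.map (τ : F →* F) (ι u.toMul) = ι ((s a u).toMul) := by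
        ext
        change τ (algebraMap O F ((u.toMul : Oˣ) : O)) = algebraMap O F (((s a u).toMul : Oˣ) : O)
        rw [hs_apply, h1]
      rw [h4]; exact h3)
    refine ⟨m, hm1, ?_⟩
    apply hext
    have h5 : (((m • u : U).toMul : Oˣ) : O) = ((u.toMul : Oˣ) : O) ^ m := rfl
    have h6 : (((0 : U).toMul : Oˣ) : O) = 1 := rfl
    rw [h5, h6, map_pow, map_one]
    have h7 := congrArg (Units.val) hm2
    exact h7
  obtain ⟨m0, hm0⟩ := D0H54.UB.unit_bound (p := p) s hs v hv l
  -- the logarithmic derivative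
  let ψ : U →+ E :=
    { toFun := fun u => j (D (algebraMap O F ((u.toMul : Oˣ) : O)) / algebraMap O F ((u.toMul : Oˣ) : O))
      map_zero' := by
        change j (D (algebraMap O F ((1 : Oˣ) : O)) / algebraMap O F ((1 : Oˣ) : O)) = 0
        rw [Units.val_one, map_one, Derivation.map_one_eq_zero, zero_div, map_zero]
      map_add' := fun u u' => by
        have hne : ∀ u : Oˣ, algebraMap O F (u : O) ≠ 0 := fun u h0 => u.ne_zero (hinj (by rw [h0, map_zero]))
        change j (D (algebraMap O F ((u.toMul * u'.toMul : Oˣ) : O)) / algebraMap O F ((u.toMul * u'.toMul : Oˣ) : O)) = _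
        rw [← map_add, Units.val_mul, map_mul, Derivation.leibniz, smul_eq_mul, smul_eq_mul]
        congr 1
        have h1 := hne u.toMul
        have h2 := hne u'.toMul
        field_simp
        ring }
  obtain ⟨Φ, hΦ1, hΦ2⟩ := exists_tensor_map io ψ
  refine ⟨Φ m0, fun h hh e he => ?_⟩
  have hne : ∀ u : Oˣ, algebraMap O F (u : O) ≠ 0 := fun u h0 => u.ne_zero (hinj (by rw [h0, map_zero]))
  obtain ⟨c0, hc0⟩ := hm0 (fun c => Additive.ofMul (e (c : κ))) (by
    intro a c
    -- the relation between conjugate units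
    have h1 : D (algebraMap O F (((sO (σ a)) (e (c : κ) : O)))) = h ((a : κ) ^ l * c) *
        algebraMap O F ((sO (σ a)) (e (c : κ) : O)) := by
      rw [hsO, ← comm_sigma p D (σ a) hT hdec, he, map_mul, hh (σ a) (rep (a : κ)) (hσ a), hrep]
    have hne1 : (sO (σ a)) (e (c : κ) : O) ≠ 0 := fun h0 => (e (c : κ)).ne_zero
      ((sO (σ a)).injective (by rw [h0, map_zero]))
    obtain ⟨x, y, hx, hy, hxy⟩ := rel_of_dlog p D hT hdec ((sO (σ a)) (e (c : κ) : O))
      ((e ((a : κ) ^ l * c) : Oˣ) : O) hne1 (e _).ne_zero (h ((a : κ) ^ l * c)) h1 (he _)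
    -- the quotient y / x is a unit
    have hx1 : algebraMap O F x ≠ 0 := fun h0 => hx (hinj (by rw [h0, map_zero]))
    have hy1 : algebraMap O F y ≠ 0 := fun h0 => hy (hinj (by rw [h0, map_zero]))
    set e1 : Oˣ := Units.map ((sO (σ a) : O ≃+* O) : O →* O) (e (c : κ)) with he1
    set e2 : Oˣ := e ((a : κ) ^ l * c) with he2
    have hxy' : (e1 : O) * x ^ p = (e2 : O) * y ^ p := hxy
    have hz : (algebraMap O F y / algebraMap O F x) ^ p = algebraMap O F ((e1 * e2⁻¹ : Oˣ) : O) := by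
      have h3 := congrArg (algebraMap O F) hxy'
      rw [map_mul, map_mul, map_pow, map_pow] at h3
      have h4 : algebraMap O F ((e2⁻¹ : Oˣ) : O) * algebraMap O F (e2 : O) = 1 := by
        rw [← map_mul, Units.inv_mul, map_one]
      rw [div_pow, div_eq_iff (pow_ne_zero _ hx1), Units.val_mul, map_mul]
      linear_combination (-(algebraMap O F y) ^ p) * h4 - algebraMap O F ((e2⁻¹ : Oˣ) : O) * h3
    have hz' : (algebraMap O F x / algebraMap O F y) ^ p = algebraMap O F ((e2 * e1⁻¹ : Oˣ) : O) := by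
      have h5 : (algebraMap O F x / algebraMap O F y) ^ p = ((algebraMap O F y / algebraMap O F x) ^ p)⁻¹ := by
        rw [← inv_pow, inv_div]
      rw [h5, hz]
      symm
      apply eq_inv_of_mul_eq_one_left
      rw [← map_mul, ← Units.val_mul]
      have : e2 * e1⁻¹ * (e1 * e2⁻¹) = 1 := by group
      rw [this, Units.val_one, map_one]
    obtain ⟨u1, hu1⟩ := (hint (algebraMap O F y / algebraMap O F x)).1
      (int_of_pow hp.out.ne_zero (by rw [hz]; exact (hint _).2 ⟨_, rfl⟩))
    obtain ⟨u2, hu2⟩ := (hint (algebraMap O F x / algebraMap O F y)).1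
      (int_of_pow hp.out.ne_zero (by rw [hz']; exact (hint _).2 ⟨_, rfl⟩))
    have hu12 : u1 * u2 = 1 := by
      apply hinj
      rw [map_mul, hu1, hu2, map_one]
      field_simp
    let u : Oˣ := ⟨u1, u2, hu12, by rw [mul_comm, hu12]⟩
    refine ⟨Additive.ofMul u, ?_⟩
    apply Additive.toMul.injective
    change e1 = e ((((a ^ l * c : κˣ) : κˣ) : κ)) * u ^ p
    have h6 : e ((((a ^ l * c : κˣ) : κˣ) : κ)) = e2 := by
      rw [he2]; congr 1
    rw [h6]
    apply Units.ext
    apply hinj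
    rw [Units.val_mul, Units.val_pow_eq_pow_val, map_mul, map_pow]
    change _ = algebraMap O F (e2 : O) * (algebraMap O F u1) ^ p
    rw [hu1, hz, ← map_mul, ← Units.val_mul]
    congr 2
    rw [mul_comm e1, mul_inv_cancel_left])
  refine ⟨c0, ?_⟩
  have h1 := congrArg Φ hc0
  rw [map_sum, hΦ2] at h1
  rw [← h1]
  refine sum_congr rfl fun c _ => ?_
  rw [hΦ1, map_inv₀]
  congr 1
  change j (h (c : κ)) = j (D (algebraMap O F ((e (c : κ) : Oˣ) : O)) / algebraMap O F ((e (c : κ) : Oˣ) : O))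
  rw [he, mul_div_cancel_right₀ _ (hne _)]

end main

end Pool.Agent.D0H54.GE
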